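import Pool.Agent.Run7.h684.WS.Lim
import Pool.Agent.H295R3.Hoheisel

/-!
# The powers `k^A` and the primes
-/

set_option autoImplicit false

open Filter Topology Set

namespace Run7.h684.WS

open Run7.h684.Smp

noncomputable section

/-- the powers -/
def xiA (A : ℝ) (k : ℕ) : ℝ := ((k : ℝ) + 1) ^ A

/-- the weights of the powers -/
def gA (A : ℝ) (k : ℕ) : ℝ := A * ((k : ℝ) + 1) ^ (A - 1)

theorem seq_pow {A : ℝ} (hA : 1 ≤ A) : Seq (xiA A) (gA A) where
  mono := by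
    intro i j hij
    unfold xiA
    have h1 : (i : ℝ) ≤ j := by exact_mod_cast hij
    exact Real.rpow_le_rpow (by positivity) (by linarith) (by linarith)
  tend := by
    have h1 : Tendsto (fun k : ℕ => (k : ℝ) + 1) atTop atTop :=
      tendsto_atTop_add_const_right _ _ tendsto_natCast_atTop_atTop
    exact (tendsto_rpow_atTop (by linarith)).comp h1
  pos := by
    intro k
    unfold gA
    positivity

theorem step_low {A t : ℝ} (hA : 1 ≤ A) (ht : 0 < t) : A * t ^ (A - 1) ≤ (t + 1) ^ A - t ^ A := by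
  have h1 : 1 + A * (1 / t) ≤ (1 + 1 / t) ^ A :=
    one_add_mul_self_le_rpow_one_add (by have : 0 < 1 / t := by positivity
                                         linarith) hA
  have e1 : (t + 1) ^ A = t ^ A * (1 + 1 / t) ^ A := by
    rw [← Real.mul_rpow ht.le (by positivity)]
    congr 1
    field_simp
  have e2 : t ^ (A - 1) = t ^ A * (1 / t) := by
    rw [Real.rpow_sub_one ht.ne']
    ring
  rw [e1, e2]
  have h2 := mul_le_mul_of_nonneg_left h1 (Real.rpow_nonneg ht.le A)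
  linarith

theorem step_up {A t : ℝ} (hA : 1 ≤ A) (ht : 1 ≤ t) : t ^ A - (t - 1) ^ A ≤ A * t ^ (A - 1) := by
  have ht0 : 0 < t := by linarith
  have h1 : 1 + A * (-(1 / t)) ≤ (1 + -(1 / t)) ^ A := by
    refine one_add_mul_self_le_rpow_one_add ?_ hA
    have : 1 / t ≤ 1 := by rw [div_le_one ht0]; exact ht
    linarith
  have e1 : (t - 1) ^ A = t ^ A * (1 + -(1 / t)) ^ A := by
    have h3 : 1 / t ≤ 1 := by rw [div_le_one ht0]; exact ht
    rw [← Real.mul_rpow ht0.le (by linarith)]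
    congr 1
    field_simp
    ring
  have e2 : t ^ (A - 1) = t ^ A * (1 / t) := by
    rw [Real.rpow_sub_one ht0.ne']
    ring
  rw [e1, e2]
  have h2 := mul_le_mul_of_nonneg_left h1 (Real.rpow_nonneg ht0.le A)
  linarith

theorem step_conv {A u : ℝ} (hA : 1 ≤ A) (hu1 : 1 ≤ u) : (u + 1) ^ A ≤ u ^ A + (2 ^ A - 1) * u ^ (A - 1) := by
  have hu0 : 0 < u := by linarith
  have h3 : (u + 1) ^ A = u ^ A * (1 + 1 / u) ^ A := by
    rw [← Real.mul_rpow hu0.le (by positivity)]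
    congr 1
    field_simp
  have h4 : (1 + 1 / u) ^ A ≤ 1 + (2 ^ A - 1) * (1 / u) := by
    have ha : 0 ≤ 1 - 1 / u := by
      have : 1 / u ≤ 1 := by
        rw [div_le_one hu0]
        exact hu1
      linarith
    have hb : 0 ≤ 1 / u := by positivity
    have hab : (1 - 1 / u) + 1 / u = 1 := by ring
    have m1 : (1 : ℝ) ∈ Ici (0 : ℝ) := by simp
    have m2 : (2 : ℝ) ∈ Ici (0 : ℝ) := by simp
    have hc := (convexOn_rpow hA).2 m1 m2 ha hb hab
    simp only [smul_eq_mul, Real.one_rpow, mul_one] at hc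
    have e1 : 1 - 1 / u + 1 / u * 2 = 1 + 1 / u := by ring
    rw [e1] at hc
    linarith
  have e2 : u ^ (A - 1) = u ^ A * (1 / u) := by
    rw [Real.rpow_sub_one hu0.ne']
    ring
  rw [h3, e2]
  have h2 := mul_le_mul_of_nonneg_left h4 (Real.rpow_nonneg hu0.le A)
  linarith

theorem tele (f : ℕ → ℝ) {p q : ℕ} (h : p ≤ q) : ∑ k ∈ Finset.Ico p q, (f (k + 1) - f k) = f q - f p := by
  rw [Finset.sum_Ico_eq_sub _ h, Finset.sum_range_sub, Finset.sum_range_sub]
  ring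

/-- the masses of the powers -/
theorem mass_pow {A : ℝ} (hA : 1 ≤ A) {x h : ℝ} (hx : 1 ≤ x) (hh : 0 ≤ h) :
    ws (xiA A) (gA A) x (x + h) ≤ h + (2 ^ A - 1) * (x + h) ^ (1 - 1 / A) ∧
      h - A * (x + h) ^ (1 - 1 / A) ≤ ws (xiA A) (gA A) x (x + h) := by
  have hA0 : 0 < A := by linarith
  have hs := seq_pow hA
  set p : ℕ := idx (xiA A) x with hp
  set q : ℕ := idx (xiA A) (x + h) with hq
  have hpq : p ≤ q := idx_mono hs (by linarith)
  have g1 : ∀ y : ℝ, y ≤ ((idx (xiA A) y : ℕ) + 1 : ℝ) ^ A := fun y => (le_idx hs y _).1 le_rfl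
  have g2 : ∀ y : ℝ, 0 < y → ((idx (xiA A) y : ℕ) : ℝ) ^ A < y := by
    intro y hy
    rcases Nat.eq_zero_or_pos (idx (xiA A) y) with h0 | h0
    · rw [h0, Nat.cast_zero, Real.zero_rpow hA0.ne']
      exact hy
    · obtain ⟨r, hr⟩ := Nat.exists_eq_add_of_lt h0
      have h1 : r < idx (xiA A) y := by omega
      have h2 := (idx_lt hs y r).1 h1
      unfold xiA at h2
      have h3 : ((idx (xiA A) y : ℕ) : ℝ) = r + 1 := by
        rw [hr]
        push_cast
        ring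
      rw [h3]
      exact h2
  have hxh : 1 ≤ x + h := by linarith
  have hxh0 : 0 < x + h := by linarith
  set u : ℝ := (x + h) ^ (1 / A) with hu
  have hu1 : 1 ≤ u := Real.one_le_rpow hxh (by positivity)
  have hu0 : 0 < u := by linarith
  have huA : u ^ A = x + h := by
    rw [hu, ← Real.rpow_mul hxh0.le, one_div_mul_cancel hA0.ne', Real.rpow_one]
  have huA1 : u ^ (A - 1) = (x + h) ^ (1 - 1 / A) := by
    rw [hu, ← Real.rpow_mul hxh0.le]
    congr 1
    field_simp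
  have hq0 : (0 : ℝ) ≤ q := Nat.cast_nonneg q
  have hqu : (q : ℝ) < u := by
    rw [← Real.rpow_lt_rpow_iff hq0 hu0.le hA0, huA]
    exact g2 _ hxh0
  have hqu2 : u ≤ q + 1 := by
    rw [← Real.rpow_le_rpow_iff hu0.le (by positivity) hA0, huA]
    exact g1 _
  constructor
  · have h1 : ws (xiA A) (gA A) x (x + h) ≤ ∑ k ∈ Finset.Ico p q,
        ((((k + 1 : ℕ) : ℝ) + 1) ^ A - (((k : ℕ) : ℝ) + 1) ^ A) := by
      unfold ws gA
      refine Finset.sum_le_sum fun k _ => ?_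
      have := step_low hA (show (0 : ℝ) < (k : ℝ) + 1 by positivity)
      push_cast
      exact this
    rw [tele (fun k : ℕ => ((k : ℝ) + 1) ^ A) hpq] at h1
    have h2 : ((q : ℝ) + 1) ^ A ≤ (x + h) + (2 ^ A - 1) * (x + h) ^ (1 - 1 / A) := by
      rw [← huA1]
      nth_rewrite 1 [← huA]
      refine le_trans ?_ (step_conv hA hu1)
      exact Real.rpow_le_rpow (by positivity) (by linarith) hA0.le
    have h3 := g1 x
    linarith
  · have h1 : ∑ k ∈ Finset.Ico p q, ((((k + 1 : ℕ) : ℝ)) ^ A - (((k : ℕ) : ℝ)) ^ A) ≤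
        ws (xiA A) (gA A) x (x + h) := by
      unfold ws gA
      refine Finset.sum_le_sum fun k _ => ?_
      have h0 : (0 : ℝ) ≤ k := Nat.cast_nonneg k
      have := step_up hA (show (1 : ℝ) ≤ (k : ℝ) + 1 by linarith)
      rw [add_sub_cancel_right] at this
      push_cast
      exact this
    rw [tele (fun k : ℕ => (k : ℝ) ^ A) hpq] at h1
    have h2 : (x + h) - A * (x + h) ^ (1 - 1 / A) ≤ (q : ℝ) ^ A := by
      rw [← huA1]
      have h3 := step_up hA hu1
      have h4 : (u - 1) ^ A ≤ (q : ℝ) ^ A := Real.rpow_le_rpow (by linarith) (by linarith) hA0.le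
      rw [huA] at h3
      linarith
    have h3 := g2 x (by linarith)
    linarith

theorem massUp_pow {A : ℝ} (hA : 1 ≤ A) {ε : ℝ} (hε : 0 < ε) : MassUp (xiA A) (gA A) (1 + ε) (1 / (2 * A)) := by
  have hA0 : 0 < A := by linarith
  have hexp : 1 - 1 / A < 1 - 1 / (2 * A) := by
    have : 1 / (2 * A) < 1 / A := one_div_lt_one_div_of_lt hA0 (by linarith)
    linarith
  have h2A : (0 : ℝ) ≤ 2 ^ A - 1 := by
    have : (1 : ℝ) ≤ 2 ^ A := Real.one_le_rpow (by norm_num) hA0.le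
    linarith
  filter_upwards [ev_rpow ((2 ^ A - 1) * 2 / ε) hexp, eventually_ge_atTop 1] with x g1 g2 h h1 h2
  have hx : 0 < x := by linarith
  have hh : 0 ≤ h := (Real.rpow_nonneg hx.le _).trans h1
  have g3 := (mass_pow hA g2 hh).1
  have g4 : (x + h) ^ (1 - 1 / A) ≤ 2 * x ^ (1 - 1 / A) := by
    have e0 : 0 ≤ 1 - 1 / A := by
      have : 1 / A ≤ 1 := by rw [div_le_one hA0]; exact hA
      linarith
    have e1 : (2 : ℝ) ^ (1 - 1 / A) ≤ 2 := by
      calc (2 : ℝ) ^ (1 - 1 / A) ≤ 2 ^ (1 : ℝ) :=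
            Real.rpow_le_rpow_of_exponent_le (by norm_num) (by
              have : 0 < 1 / A := by positivity
              linarith)
        _ = 2 := Real.rpow_one 2
    calc (x + h) ^ (1 - 1 / A) ≤ (2 * x) ^ (1 - 1 / A) := Real.rpow_le_rpow (by linarith) (by linarith) e0
      _ = 2 ^ (1 - 1 / A) * x ^ (1 - 1 / A) := Real.mul_rpow (by norm_num) hx.le
      _ ≤ _ := mul_le_mul_of_nonneg_right e1 (Real.rpow_nonneg hx.le _)
  have g5 : (2 ^ A - 1) * (2 * x ^ (1 - 1 / A)) ≤ ε * h := by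
    have h3 := g1.trans h1
    rw [div_mul_eq_mul_div, div_le_iff₀ hε] at h3
    linarith
  have g6 := mul_le_mul_of_nonneg_left g4 h2A
  linarith

theorem massLow_pow {A : ℝ} (hA : 1 ≤ A) {ε : ℝ} (hε : 0 < ε) : MassLow (xiA A) (gA A) (1 - ε) (1 / (2 * A)) := by
  have hA0 : 0 < A := by linarith
  have hexp : 1 - 1 / A < 1 - 1 / (2 * A) := by
    have : 1 / (2 * A) < 1 / A := one_div_lt_one_div_of_lt hA0 (by linarith)
    linarith
  filter_upwards [ev_rpow (A * 2 / ε) hexp, eventually_ge_atTop 1] with x g1 g2 h h1 h2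
  have hx : 0 < x := by linarith
  have hh : 0 ≤ h := (Real.rpow_nonneg hx.le _).trans h1
  have g3 := (mass_pow hA g2 hh).2
  have g4 : (x + h) ^ (1 - 1 / A) ≤ 2 * x ^ (1 - 1 / A) := by
    have e0 : 0 ≤ 1 - 1 / A := by
      have : 1 / A ≤ 1 := by rw [div_le_one hA0]; exact hA
      linarith
    have e1 : (2 : ℝ) ^ (1 - 1 / A) ≤ 2 := by
      calc (2 : ℝ) ^ (1 - 1 / A) ≤ 2 ^ (1 : ℝ) :=
            Real.rpow_le_rpow_of_exponent_le (by norm_num) (by
              have : 0 < 1 / A := by positivity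
              linarith)
        _ = 2 := Real.rpow_one 2
    calc (x + h) ^ (1 - 1 / A) ≤ (2 * x) ^ (1 - 1 / A) := Real.rpow_le_rpow (by linarith) (by linarith) e0
      _ = 2 ^ (1 - 1 / A) * x ^ (1 - 1 / A) := Real.mul_rpow (by norm_num) hx.le
      _ ≤ _ := mul_le_mul_of_nonneg_right e1 (Real.rpow_nonneg hx.le _)
  have g5 : A * (2 * x ^ (1 - 1 / A)) ≤ ε * h := by
    have h3 := g1.trans h1
    rw [div_mul_eq_mul_div, div_le_iff₀ hε] at h3
    linarith
  have g6 := mul_le_mul_of_nonneg_left g4 hA0.le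
  linarith

/-- the weights of the primes -/
def gP (k : ℕ) : ℝ := if k.Prime then Real.log k else 0

/-- the integers -/
def xiN (k : ℕ) : ℝ := k

theorem seq_prime : Seq xiN gP where
  mono := fun i j hij => by
    unfold xiN
    exact_mod_cast hij
  tend := tendsto_natCast_atTop_atTop
  pos := by
    intro k
    unfold gP
    split_ifs
    · exact Real.log_natCast_nonneg k
    · exact le_rfl

theorem idx_nat (x : ℝ) : idx xiN x = ⌈x⌉₊ := by
  refine le_antisymm ?_ ?_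
  · rw [le_idx seq_prime]
    exact Nat.le_ceil x
  · rw [Nat.ceil_le]
    exact (le_idx seq_prime x _).1 le_rfl

theorem sum_gP (n : ℕ) : ∑ k ∈ Finset.range (n + 1), gP k = Chebyshev.theta n := by
  rw [Chebyshev.theta_eq_sum_Icc, Nat.floor_natCast, Finset.sum_filter]
  have e1 : Finset.Icc 0 n = Finset.range (n + 1) := by
    ext k
    simp
  rw [e1]
  rfl

/-- the masses of the primes, when there are no zeros to the right of the critical line -/
theorem mass_prime (hz : ∀ s : ℂ, 1 / 2 < s.re → riemannZeta s ≠ 0) : ∃ C : ℝ, 0 ≤ C ∧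
    ∀ y : ℝ, 1 ≤ y → |∑ k ∈ Finset.range (idx xiN y), gP k - y| ≤ C * y ^ (3 / 4 : ℝ) := by
  obtain ⟨C, hC0, hC⟩ := Pool.Agent.W190.psi_of_free (1 / 2) le_rfl hz (3 / 4) (by norm_num) (by norm_num)
  refine ⟨C + 9, by linarith, fun y hy => ?_⟩
  rw [idx_nat]
  have hy0 : 0 < y := by linarith
  have hpos : 0 < ⌈y⌉₊ := Nat.ceil_pos.2 hy0
  obtain ⟨n, hn⟩ := Nat.exists_eq_add_of_lt hpos
  have hn' : ⌈y⌉₊ = n + 1 := by omega
  rw [hn', sum_gP]
  have hny : (n : ℝ) < y := by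
    have h1 : n < ⌈y⌉₊ := by omega
    exact Nat.lt_ceil.1 h1
  have hyn : y ≤ n + 1 := by
    have := Nat.le_ceil y
    rw [hn'] at this
    exact_mod_cast this
  have h34 : 1 ≤ y ^ (3 / 4 : ℝ) := Real.one_le_rpow hy (by norm_num)
  rcases Nat.eq_zero_or_pos n with h0 | h0
  · rw [h0, Nat.cast_zero, Chebyshev.theta_zero, zero_sub, abs_neg, abs_of_pos hy0]
    rw [h0, Nat.cast_zero, zero_add] at hyn
    nlinarith
  · have hn1 : (1 : ℝ) ≤ n := by exact_mod_cast h0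
    have h1 := hC n hn1
    have h2 := Chebyshev.abs_psi_sub_theta_le_sqrt_mul_log hn1
    have h3 : 2 * √(n : ℝ) * Real.log n ≤ 8 * (n : ℝ) ^ (3 / 4 : ℝ) := by
      have g1 : Real.log n ≤ (n : ℝ) ^ (1 / 4 : ℝ) / (1 / 4) := Real.log_le_rpow_div (by linarith) (by norm_num)
      rw [Real.sqrt_eq_rpow]
      calc 2 * (n : ℝ) ^ (1 / 2 : ℝ) * Real.log n ≤ 2 * (n : ℝ) ^ (1 / 2 : ℝ) * ((n : ℝ) ^ (1 / 4 : ℝ) / (1 / 4)) :=
            mul_le_mul_of_nonneg_left g1 (by positivity)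
        _ = 8 * ((n : ℝ) ^ (1 / 2 : ℝ) * (n : ℝ) ^ (1 / 4 : ℝ)) := by ring
        _ = 8 * (n : ℝ) ^ (3 / 4 : ℝ) := by
            rw [← Real.rpow_add (by linarith)]
            norm_num
    have h4 : (n : ℝ) ^ (3 / 4 : ℝ) ≤ y ^ (3 / 4 : ℝ) := Real.rpow_le_rpow (by linarith) hny.le (by norm_num)
    have e1 : Chebyshev.theta n - y = (Chebyshev.psi n - n) - (Chebyshev.psi n - Chebyshev.theta n) - (y - n) := by
      ring
    rw [e1]
    refine (abs_sub _ _).trans ?_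
    have h5 := abs_sub (Chebyshev.psi n - n) (Chebyshev.psi n - Chebyshev.theta n)
    have h6 : |y - n| ≤ 1 := by
      rw [abs_of_pos (by linarith)]
      linarith
    have h7 : C * (n : ℝ) ^ (3 / 4 : ℝ) ≤ C * y ^ (3 / 4 : ℝ) := mul_le_mul_of_nonneg_left h4 hC0.le
    linarith

theorem ws_prime (x y : ℝ) (hxy : x ≤ y) : ws xiN gP x y =
    ∑ k ∈ Finset.range (idx xiN y), gP k - ∑ k ∈ Finset.range (idx xiN x), gP k := by
  unfold ws
  exact Finset.sum_Ico_eq_sub _ (idx_mono seq_prime hxy)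

theorem mass_prime_err (hz : ∀ s : ℂ, 1 / 2 < s.re → riemannZeta s ≠ 0) {ε : ℝ} (hε : 0 < ε) :
    ∀ᶠ x : ℝ in atTop, ∀ h : ℝ, x ^ (1 - 1 / 8 : ℝ) ≤ h → h ≤ x → |ws xiN gP x (x + h) - h| ≤ ε * h := by
  obtain ⟨C, hC0, hC⟩ := mass_prime hz
  filter_upwards [ev_rpow (3 * C / ε) (show (3 / 4 : ℝ) < 1 - 1 / 8 by norm_num), eventually_ge_atTop 1]
    with x g1 g2 h h1 h2
  have hx : 0 < x := by linarith
  have hh : 0 ≤ h := (Real.rpow_nonneg hx.le _).trans h1
  rw [ws_prime x (x + h) (by linarith)]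
  have g3 := hC x g2
  have g4 := hC (x + h) (by linarith)
  have g5 : (x + h) ^ (3 / 4 : ℝ) ≤ 2 * x ^ (3 / 4 : ℝ) := by
    have e1 : (2 : ℝ) ^ (3 / 4 : ℝ) ≤ 2 := by
      calc (2 : ℝ) ^ (3 / 4 : ℝ) ≤ 2 ^ (1 : ℝ) :=
            Real.rpow_le_rpow_of_exponent_le (by norm_num) (by norm_num)
        _ = 2 := Real.rpow_one 2
    calc (x + h) ^ (3 / 4 : ℝ) ≤ (2 * x) ^ (3 / 4 : ℝ) :=
          Real.rpow_le_rpow (by linarith) (by linarith) (by norm_num)
      _ = 2 ^ (3 / 4 : ℝ) * x ^ (3 / 4 : ℝ) := Real.mul_rpow (by norm_num) hx.le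
      _ ≤ _ := mul_le_mul_of_nonneg_right e1 (Real.rpow_nonneg hx.le _)
  have g6 : 3 * C * x ^ (3 / 4 : ℝ) ≤ ε * h := by
    have h3 := g1.trans h1
    rw [div_mul_eq_mul_div, div_le_iff₀ hε] at h3
    linarith
  have g7 := mul_le_mul_of_nonneg_left g5 hC0
  rw [abs_le] at g3 g4 ⊢
  constructor <;> linarith [g3.1, g3.2, g4.1, g4.2]

theorem massUp_prime (hz : ∀ s : ℂ, 1 / 2 < s.re → riemannZeta s ≠ 0) {ε : ℝ} (hε : 0 < ε) :
    MassUp xiN gP (1 + ε) (1 / 8) := by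
  filter_upwards [mass_prime_err hz hε] with x hx h h1 h2
  have := (abs_le.1 (hx h h1 h2)).2
  linarith

theorem massLow_prime (hz : ∀ s : ℂ, 1 / 2 < s.re → riemannZeta s ≠ 0) {ε : ℝ} (hε : 0 < ε) :
    MassLow xiN gP (1 - ε) (1 / 8) := by
  filter_upwards [mass_prime_err hz hε] with x hx h h1 h2
  have := (abs_le.1 (hx h h1 h2)).1
  linarith

/-- Hoheisel's theorem -/
theorem massLow_hoh : ∃ c η : ℝ, 0 < c ∧ 0 < η ∧ η ≤ 1 ∧ MassLow xiN gP c η := by
  obtain ⟨δ, e, hδ, hδ1, he, X₀, hX₀, hH⟩ := Pool.Agent.H295R3.D.hoheisel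
  refine ⟨e / 2, δ / 2, by positivity, by positivity, by linarith, ?_⟩
  filter_upwards [ev_rpow 4 (show 1 - δ < 1 - δ / 2 by linarith), ev_rpow 8 (show (0 : ℝ) < 1 - δ / 2 by linarith),
    eventually_ge_atTop (X₀ : ℝ), eventually_ge_atTop (2 : ℝ)] with x g1 g2 g3 g4 h h1 h2
  rw [Real.rpow_zero, mul_one] at g2
  have hx : 0 < x := lt_of_lt_of_le two_pos g4
  set X : ℕ := ⌈x⌉₊ with hX
  have hxX : x ≤ X := Nat.le_ceil x
  have hXx : (X : ℝ) < x + 1 := Nat.ceil_lt_add_one hx.le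
  have hh8 : 8 ≤ h := g2.trans h1
  set Y : ℕ := ⌊h - 2⌋₊ with hY
  have hYh : (Y : ℝ) ≤ h - 2 := Nat.floor_le (by linarith)
  have hhY : h - 3 < Y := by
    have := Nat.lt_floor_add_one (h - 2)
    rw [← hY] at this
    linarith
  have hX0 : X₀ ≤ X := by exact_mod_cast g3.trans hxX
  have hX1 : (1 : ℝ) < X := by linarith
  have hY1 : (X : ℝ) ^ (1 - δ) ≤ Y := by
    have h3 : (X : ℝ) ^ (1 - δ) ≤ 2 * x ^ (1 - δ) := by
      have e1 : (2 : ℝ) ^ (1 - δ) ≤ 2 := by
        calc (2 : ℝ) ^ (1 - δ) ≤ 2 ^ (1 : ℝ) := Real.rpow_le_rpow_of_exponent_le (by norm_num) (by linarith)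
          _ = 2 := Real.rpow_one 2
      calc (X : ℝ) ^ (1 - δ) ≤ (2 * x) ^ (1 - δ) := Real.rpow_le_rpow (by linarith) (by linarith) (by linarith)
        _ = 2 ^ (1 - δ) * x ^ (1 - δ) := Real.mul_rpow (by norm_num) hx.le
        _ ≤ _ := mul_le_mul_of_nonneg_right e1 (Real.rpow_nonneg hx.le _)
    have h4 := g1.trans h1
    linarith
  have hYX : Y ≤ X := by
    have : (Y : ℝ) ≤ X := by linarith
    exact_mod_cast this
  have key := hH X Y hX0 hY1 hYX
  have hlog : 0 < Real.log X := Real.log_pos hX1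
  have h5 : ∑ p ∈ (Finset.Ioc X (X + Y)).filter Nat.Prime, Real.log X ≤ ws xiN gP x (x + h) := by
    unfold ws
    have hsub : (Finset.Ioc X (X + Y)).filter Nat.Prime ⊆ Finset.Ico (idx xiN x) (idx xiN (x + h)) := by
      intro p hp
      rw [Finset.mem_filter, Finset.mem_Ioc] at hp
      rw [Finset.mem_Ico, le_idx seq_prime, idx_lt seq_prime]
      unfold xiN
      constructor
      · have : (X : ℝ) ≤ p := by exact_mod_cast hp.1.1.le
        linarith
      · have : (p : ℝ) ≤ X + Y := by exact_mod_cast hp.1.2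
        linarith
    refine le_trans ?_ (Finset.sum_le_sum_of_subset_of_nonneg hsub fun k _ _ => seq_prime.pos k)
    refine Finset.sum_le_sum fun p hp => ?_
    rw [Finset.mem_filter, Finset.mem_Ioc] at hp
    unfold gP
    rw [if_pos hp.2]
    exact Real.log_le_log (by linarith) (by exact_mod_cast hp.1.1.le)
  rw [Finset.sum_const, nsmul_eq_mul] at h5
  rw [div_le_iff₀ hlog] at key
  refine le_trans ?_ h5
  refine le_trans ?_ key
  nlinarith

end

end Run7.h684.WS
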