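import Mathlib

/-!
# Weighted sums over a sequence of points, against integrals
-/

set_option autoImplicit false

open MeasureTheory Filter Topology Set

namespace Run7.h684.WS

noncomputable section

/-- the first index `n` with `x ≤ ξ n` -/
def idx (ξ : ℕ → ℝ) (x : ℝ) : ℕ := sInf {n : ℕ | x ≤ ξ n}

/-- the sequence -/
structure Seq (ξ g : ℕ → ℝ) : Prop where
  mono : Monotone ξ
  tend : Tendsto ξ atTop atTop
  pos : ∀ k, 0 ≤ g k

variable {ξ g : ℕ → ℝ}

theorem idx_lt (h : Seq ξ g) (x : ℝ) (k : ℕ) : k < idx ξ x ↔ ξ k < x := by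
  have hne : {n : ℕ | x ≤ ξ n}.Nonempty := (h.tend.eventually_ge_atTop x).exists
  constructor
  · intro h1
    by_contra hcon
    exact absurd (Nat.sInf_le (show k ∈ {n | x ≤ ξ n} from not_lt.1 hcon)) (not_le.2 h1)
  · intro h1
    by_contra hcon
    have h2 : idx ξ x ≤ k := not_lt.1 hcon
    have h3 : x ≤ ξ (idx ξ x) := Nat.sInf_mem hne
    exact absurd (h3.trans (h.mono h2)) (not_le.2 h1)

theorem le_idx (h : Seq ξ g) (x : ℝ) (k : ℕ) : idx ξ x ≤ k ↔ x ≤ ξ k := by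
  rw [← not_lt, idx_lt h, not_lt]

theorem idx_mono (h : Seq ξ g) {x y : ℝ} (hxy : x ≤ y) : idx ξ x ≤ idx ξ y := by
  rw [le_idx h]
  exact hxy.trans ((le_idx h y _).1 le_rfl)

/-- the sum over the points in `[x, y)` -/
def ws (ξ f : ℕ → ℝ) (x y : ℝ) : ℝ := ∑ k ∈ Finset.Ico (idx ξ x) (idx ξ y), f k

theorem ws_add (h : Seq ξ g) (f : ℕ → ℝ) {x y z : ℝ} (h1 : x ≤ y) (h2 : y ≤ z) :
    ws ξ f x y + ws ξ f y z = ws ξ f x z :=
  Finset.sum_Ico_consecutive f (idx_mono h h1) (idx_mono h h2)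

theorem ws_nonneg {f : ℕ → ℝ} (hf : ∀ k, 0 ≤ f k) (x y : ℝ) : 0 ≤ ws ξ f x y :=
  Finset.sum_nonneg fun k _ => hf k

theorem ws_cells (h : Seq ξ g) (f : ℕ → ℝ) (a : ℕ → ℝ) (ha : Monotone a) (n : ℕ) :
    ws ξ f (a 0) (a n) = ∑ i ∈ Finset.range n, ws ξ f (a i) (a (i + 1)) := by
  induction n with
  | zero => simp [ws]
  | succ n ih =>
    rw [Finset.sum_range_succ, ← ih]
    exact (ws_add h f (ha (Nat.zero_le n)) (ha (Nat.le_succ n))).symm

theorem elem (x y : ℝ) {lam : ℝ} (hl : 0 < lam) :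
    x ^ 2 ≤ (1 + lam) * y ^ 2 + (1 + lam⁻¹) * (x - y) ^ 2 := by
  have h1 : 0 ≤ lam * (y - (x - y) * lam⁻¹) ^ 2 := by positivity
  have h2 : lam * (y - (x - y) * lam⁻¹) ^ 2 = lam * y ^ 2 - 2 * y * (x - y) + lam⁻¹ * (x - y) ^ 2 := by
    field_simp
    ring
  nlinarith

theorem cell_up (h : Seq ξ g) {G : ℝ → ℝ} {a b z c lam : ℝ} (hab : a < b) (hl : 0 < lam) (hz : 0 ≤ z)
    (hG : IntervalIntegrable (fun u => G u ^ 2) volume a b)
    (hosc : ∀ x y : ℝ, a ≤ x → x ≤ b → a ≤ y → y ≤ b → (G x - G y) ^ 2 ≤ z)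
    (hmass : ws ξ g a b ≤ c * (b - a)) :
    ws ξ (fun k => g k * G (ξ k) ^ 2) a b ≤
      c * ((1 + lam) * (∫ u in a..b, G u ^ 2) + (1 + lam⁻¹) * ((b - a) * z)) := by
  have hL : 0 < b - a := by linarith
  set H := ∫ u in a..b, G u ^ 2 with hH
  have hH0 : 0 ≤ H := intervalIntegral.integral_nonneg hab.le fun u _ => sq_nonneg _
  set R := (1 + lam) * H + (1 + lam⁻¹) * ((b - a) * z) with hR
  have hR0 : 0 ≤ R := by positivity
  have key : ∀ k ∈ Finset.Ico (idx ξ a) (idx ξ b), g k * G (ξ k) ^ 2 ≤ g k * (R / (b - a)) := by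
    intro k hk
    rw [Finset.mem_Ico, le_idx h, idx_lt h] at hk
    refine mul_le_mul_of_nonneg_left ?_ (h.pos k)
    rw [le_div_iff₀ hL]
    have e1 : G (ξ k) ^ 2 * (b - a) = ∫ _ in a..b, G (ξ k) ^ 2 := by
      rw [intervalIntegral.integral_const, smul_eq_mul, mul_comm]
    rw [e1]
    have e2 : R = ∫ u in a..b, ((1 + lam) * G u ^ 2 + (1 + lam⁻¹) * z) := by
      rw [intervalIntegral.integral_add (hG.const_mul _) intervalIntegrable_const,
        intervalIntegral.integral_const_mul, intervalIntegral.integral_const, smul_eq_mul, hR]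
      ring
    rw [e2]
    refine intervalIntegral.integral_mono_on hab.le intervalIntegrable_const
      ((hG.const_mul _).add intervalIntegrable_const) fun u hu => ?_
    refine (elem (G (ξ k)) (G u) hl).trans (add_le_add le_rfl ?_)
    exact mul_le_mul_of_nonneg_left (hosc _ _ hk.1 hk.2.le hu.1 hu.2) (by positivity)
  unfold ws at hmass ⊢
  refine (Finset.sum_le_sum key).trans ?_
  rw [← Finset.sum_mul]
  calc (∑ k ∈ Finset.Ico (idx ξ a) (idx ξ b), g k) * (R / (b - a)) ≤ (c * (b - a)) * (R / (b - a)) :=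
        mul_le_mul_of_nonneg_right hmass (by positivity)
    _ = c * R := by field_simp

theorem cell_low (h : Seq ξ g) {G : ℝ → ℝ} {a b z c lam : ℝ} (hab : a < b) (hl : 0 < lam) (hc : 0 ≤ c)
    (hG : IntervalIntegrable (fun u => G u ^ 2) volume a b)
    (hosc : ∀ x y : ℝ, a ≤ x → x ≤ b → a ≤ y → y ≤ b → (G x - G y) ^ 2 ≤ z)
    (hmass : c * (b - a) ≤ ws ξ g a b) :
    c * ((∫ u in a..b, G u ^ 2) - (1 + lam⁻¹) * ((b - a) * z)) ≤
      (1 + lam) * ws ξ (fun k => g k * G (ξ k) ^ 2) a b := by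
  have hL : 0 < b - a := by linarith
  set H := ∫ u in a..b, G u ^ 2 with hH
  have hS0 : 0 ≤ ws ξ (fun k => g k * G (ξ k) ^ 2) a b :=
    ws_nonneg (fun k => mul_nonneg (h.pos k) (sq_nonneg _)) a b
  set Q := H - (1 + lam⁻¹) * ((b - a) * z) with hQ
  rcases le_or_gt Q 0 with hQ0 | hQ0
  · have : c * Q ≤ 0 := mul_nonpos_of_nonneg_of_nonpos hc hQ0
    have h2 : 0 ≤ (1 + lam) * ws ξ (fun k => g k * G (ξ k) ^ 2) a b := by positivity
    linarith
  · have key : ∀ k ∈ Finset.Ico (idx ξ a) (idx ξ b), g k * (Q / (b - a)) ≤ (1 + lam) * (g k * G (ξ k) ^ 2) := by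
      intro k hk
      rw [Finset.mem_Ico, le_idx h, idx_lt h] at hk
      have h1 : Q / (b - a) ≤ (1 + lam) * G (ξ k) ^ 2 := by
        rw [div_le_iff₀ hL]
        have e2 : (1 + lam) * G (ξ k) ^ 2 * (b - a) + (1 + lam⁻¹) * ((b - a) * z) =
            ∫ _ in a..b, ((1 + lam) * G (ξ k) ^ 2 + (1 + lam⁻¹) * z) := by
          rw [intervalIntegral.integral_const, smul_eq_mul]
          ring
        have h3 : H ≤ ∫ _ in a..b, ((1 + lam) * G (ξ k) ^ 2 + (1 + lam⁻¹) * z) := by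
          refine intervalIntegral.integral_mono_on hab.le hG intervalIntegrable_const fun u hu => ?_
          refine (elem (G u) (G (ξ k)) hl).trans (add_le_add le_rfl ?_)
          exact mul_le_mul_of_nonneg_left (hosc _ _ hu.1 hu.2 hk.1 hk.2.le) (by positivity)
        rw [← e2] at h3
        linarith
      calc g k * (Q / (b - a)) ≤ g k * ((1 + lam) * G (ξ k) ^ 2) := mul_le_mul_of_nonneg_left h1 (h.pos k)
        _ = _ := by ring
    unfold ws at hmass ⊢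
    rw [Finset.mul_sum]
    refine le_trans ?_ (Finset.sum_le_sum key)
    rw [← Finset.sum_mul]
    calc c * Q = (c * (b - a)) * (Q / (b - a)) := by field_simp
      _ ≤ (∑ k ∈ Finset.Ico (idx ξ a) (idx ξ b), g k) * (Q / (b - a)) :=
        mul_le_mul_of_nonneg_right hmass (by positivity)

/-- all cells: upper bound -/
theorem win_up (h : Seq ξ g) {G : ℝ → ℝ} {a z : ℕ → ℝ} {c lam : ℝ} {n : ℕ} (ha : StrictMono a) (hl : 0 < lam)
    (hz : ∀ i, 0 ≤ z i) (hG : ∀ x y : ℝ, IntervalIntegrable (fun u => G u ^ 2) volume x y)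
    (hosc : ∀ i < n, ∀ x y : ℝ, a i ≤ x → x ≤ a (i + 1) → a i ≤ y → y ≤ a (i + 1) → (G x - G y) ^ 2 ≤ z i)
    (hmass : ∀ i < n, ws ξ g (a i) (a (i + 1)) ≤ c * (a (i + 1) - a i)) :
    ws ξ (fun k => g k * G (ξ k) ^ 2) (a 0) (a n) ≤
      c * ((1 + lam) * (∫ u in (a 0)..(a n), G u ^ 2) +
        (1 + lam⁻¹) * ∑ i ∈ Finset.range n, (a (i + 1) - a i) * z i) := by
  rw [ws_cells h _ a ha.monotone n,
    ← intervalIntegral.sum_integral_adjacent_intervals (f := fun u => G u ^ 2) (μ := volume) (a := a) (n := n)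
      (fun k _ => hG _ _), Finset.mul_sum, Finset.mul_sum, ← Finset.sum_add_distrib, Finset.mul_sum]
  refine Finset.sum_le_sum fun i hi => ?_
  rw [Finset.mem_range] at hi
  exact cell_up h (ha (Nat.lt_succ_self i)) hl (hz i) (hG _ _) (hosc i hi) (hmass i hi)

/-- all cells: lower bound -/
theorem win_low (h : Seq ξ g) {G : ℝ → ℝ} {a z : ℕ → ℝ} {c lam : ℝ} {n : ℕ} (ha : StrictMono a) (hl : 0 < lam)
    (hc : 0 ≤ c) (hG : ∀ x y : ℝ, IntervalIntegrable (fun u => G u ^ 2) volume x y)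
    (hosc : ∀ i < n, ∀ x y : ℝ, a i ≤ x → x ≤ a (i + 1) → a i ≤ y → y ≤ a (i + 1) → (G x - G y) ^ 2 ≤ z i)
    (hmass : ∀ i < n, c * (a (i + 1) - a i) ≤ ws ξ g (a i) (a (i + 1))) :
    c * ((∫ u in (a 0)..(a n), G u ^ 2) - (1 + lam⁻¹) * ∑ i ∈ Finset.range n, (a (i + 1) - a i) * z i) ≤
      (1 + lam) * ws ξ (fun k => g k * G (ξ k) ^ 2) (a 0) (a n) := by
  rw [ws_cells h _ a ha.monotone n,
    ← intervalIntegral.sum_integral_adjacent_intervals (f := fun u => G u ^ 2) (μ := volume) (a := a) (n := n)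
      (fun k _ => hG _ _), Finset.mul_sum, Finset.mul_sum, ← Finset.sum_sub_distrib, Finset.mul_sum]
  refine Finset.sum_le_sum fun i hi => ?_
  rw [Finset.mem_range] at hi
  exact cell_low h (ha (Nat.lt_succ_self i)) hl hc (hG _ _) (hosc i hi) (hmass i hi)

end

end Run7.h684.WS
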