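import Pool.Agent.Run7.h684.WS.Glob
import Pool.Agent.Run7.h684.Smp.Inst

/-!
# Summation over the windows
-/

set_option autoImplicit false

open MeasureTheory Filter Topology Set

namespace Run7.h684.WS

open Run7.h684.Smp

noncomputable section

variable {a : ℕ → ℂ} {F : ℂ → ℂ} {Θ : ℝ} {ξ g : ℕ → ℝ}

theorem geo_bound {κ : ℝ} (hκ : 0 < κ) : ∃ K : ℝ, 0 ≤ K ∧ ∀ J n : ℕ,
    ∑ j ∈ Finset.range n, Real.exp (J + j) ^ (-κ) ≤ K := by
  have hr1 : Real.exp (-κ) < 1 := by rw [Real.exp_lt_one_iff]; linarith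
  have hr0 : 0 ≤ Real.exp (-κ) := (Real.exp_pos _).le
  have hs := summable_geometric_of_lt_one hr0 hr1
  refine ⟨∑' j : ℕ, Real.exp (-κ) ^ j, tsum_nonneg fun j => by positivity, fun J n => ?_⟩
  refine le_trans (Finset.sum_le_sum fun j _ => ?_) (hs.sum_le_tsum (Finset.range n) fun j _ => by positivity)
  rw [← Real.exp_mul, ← Real.exp_nat_mul]
  apply Real.exp_le_exp.2
  have h1 : (0 : ℝ) ≤ J := Nat.cast_nonneg J
  nlinarith

/-- the sums over the windows `[e^j, e^(j+1))` -/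
theorem sum_windows (hs : Seq ξ g) (f : ℕ → ℝ) (J n : ℕ) :
    ws ξ f (Real.exp J) (Real.exp (J + n : ℕ)) =
      ∑ j ∈ Finset.range n, ws ξ f (Real.exp (J + j : ℕ)) (Real.exp 1 * Real.exp (J + j : ℕ)) := by
  have h := ws_cells hs f (fun j => Real.exp (J + j : ℕ)) (by
    intro i j hij
    apply Real.exp_le_exp.2
    exact_mod_cast (by omega : J + i ≤ J + j)) n
  simp only [add_zero] at h
  rw [h]
  refine Finset.sum_congr rfl fun j _ => ?_
  rw [← Real.exp_add]
  congr 2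
  push_cast
  ring

theorem int_windows (h : Dat a F Θ) (J n : ℕ) :
    ∫ u in (Real.exp J)..(Real.exp (J + n : ℕ)), Gf a u ^ 2 =
      ∑ j ∈ Finset.range n, ∫ u in (Real.exp (J + j : ℕ))..(Real.exp 1 * Real.exp (J + j : ℕ)), Gf a u ^ 2 := by
  have h1 := intervalIntegral.sum_integral_adjacent_intervals (f := fun u => Gf a u ^ 2) (μ := volume)
    (a := fun j : ℕ => Real.exp (J + j : ℕ)) (n := n) (fun k _ => Gf_ii h _ _)
  simp only [add_zero] at h1
  rw [← h1]
  refine Finset.sum_congr rfl fun j _ => ?_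
  rw [← Real.exp_add]
  congr 2
  push_cast
  ring

/-- the global comparison when there are no zeros to the right of the critical line -/
theorem glob (h : Dat a F (1 / 2)) (hs : Seq ξ g) {η : ℝ} (h0 : 0 < η) (hη : η ≤ 1) :
    (∀ c : ℝ, 0 ≤ c → MassUp ξ g c η → ∃ K : ℝ, ∀ m : ℕ,
      ws ξ (fun k => g k * Gf a (ξ k) ^ 2) 1 (Real.exp m) ≤
        c * (∫ u in (1 : ℝ)..(Real.exp m), Gf a u ^ 2) + K) ∧
    (∀ c : ℝ, 0 ≤ c → MassLow ξ g c η → ∃ K : ℝ, ∀ m : ℕ,
        c * (∫ u in (1 : ℝ)..(Real.exp m), Gf a u ^ 2) - K ≤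
          ws ξ (fun k => g k * Gf a (ξ k) ^ 2) 1 (Real.exp m)) := by
  obtain ⟨κ, hκ, hup, hlow⟩ := win_half h hs h0 hη
  obtain ⟨K0, hK0, hgeo⟩ := geo_bound hκ
  have hf : ∀ k, 0 ≤ g k * Gf a (ξ k) ^ 2 := fun k => mul_nonneg (hs.pos k) (sq_nonneg _)
  have hone : ∀ m : ℕ, (1 : ℝ) ≤ Real.exp m := fun m => Real.one_le_exp (Nat.cast_nonneg m)
  have hint : ∀ x y : ℝ, x ≤ y → 0 ≤ ∫ u in x..y, Gf a u ^ 2 := fun x y hxy =>
    intervalIntegral.integral_nonneg hxy fun u _ => sq_nonneg _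
  have htend : Tendsto (fun j : ℕ => Real.exp j) atTop atTop :=
    Real.tendsto_exp_atTop.comp tendsto_natCast_atTop_atTop
  constructor
  · intro c hc hm
    obtain ⟨J, hJ⟩ := eventually_atTop.1 (htend.eventually (hup c hc hm))
    refine ⟨ws ξ (fun k => g k * Gf a (ξ k) ^ 2) 1 (Real.exp J) + 3 * c * K0, fun m => ?_⟩
    rcases le_total m J with hmJ | hmJ
    · have h1 : Real.exp m ≤ Real.exp J := Real.exp_le_exp.2 (by exact_mod_cast hmJ)
      have h2 := ws_add hs (fun k => g k * Gf a (ξ k) ^ 2) (hone m) h1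
      have h3 := ws_nonneg (ξ := ξ) hf (Real.exp m) (Real.exp J)
      have h4 := mul_nonneg hc (hint 1 _ (hone m))
      have h5 : 0 ≤ 3 * c * K0 := by positivity
      linarith
    · obtain ⟨n, rfl⟩ := Nat.exists_eq_add_of_le hmJ
      have h1 : Real.exp J ≤ Real.exp (J + n : ℕ) := Real.exp_le_exp.2 (by exact_mod_cast hmJ)
      rw [← ws_add hs (fun k => g k * Gf a (ξ k) ^ 2) (hone J) h1,
        ← intervalIntegral.integral_add_adjacent_intervals (Gf_ii h 1 (Real.exp J)) (Gf_ii h _ _),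
        sum_windows hs, int_windows h]
      have h2 : ∀ j ∈ Finset.range n, ws ξ (fun k => g k * Gf a (ξ k) ^ 2) (Real.exp (J + j : ℕ))
          (Real.exp 1 * Real.exp (J + j : ℕ)) ≤
          c * (∫ u in (Real.exp (J + j : ℕ))..(Real.exp 1 * Real.exp (J + j : ℕ)), Gf a u ^ 2) +
            3 * c * Real.exp (J + j) ^ (-κ) := by
        intro j _
        have := hJ (J + j) (by omega)
        push_cast at this ⊢
        exact this
      have h3 := Finset.sum_le_sum h2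
      rw [Finset.sum_add_distrib, ← Finset.mul_sum, ← Finset.mul_sum] at h3
      have h4 := mul_le_mul_of_nonneg_left (hgeo J n) (show 0 ≤ 3 * c by positivity)
      have h5 := mul_nonneg hc (hint 1 _ (hone J))
      linarith
  · intro c hc hm
    obtain ⟨J, hJ⟩ := eventually_atTop.1 (htend.eventually (hlow c hc hm))
    refine ⟨c * (∫ u in (1 : ℝ)..(Real.exp J), Gf a u ^ 2) + 3 * c * K0, fun m => ?_⟩
    rcases le_total m J with hmJ | hmJ
    · have h1 : Real.exp m ≤ Real.exp J := Real.exp_le_exp.2 (by exact_mod_cast hmJ)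
      have h2 := intervalIntegral.integral_add_adjacent_intervals (Gf_ii h 1 (Real.exp m))
        (Gf_ii h _ (Real.exp J))
      have h3 := mul_nonneg hc (hint _ _ h1)
      have h4 := ws_nonneg (ξ := ξ) hf 1 (Real.exp m)
      have h5 : 0 ≤ 3 * c * K0 := by positivity
      have h6 : c * (∫ u in (1 : ℝ)..(Real.exp J), Gf a u ^ 2) =
          c * (∫ u in (1 : ℝ)..(Real.exp m), Gf a u ^ 2) +
            c * (∫ u in (Real.exp m)..(Real.exp J), Gf a u ^ 2) := by
        rw [← h2]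
        ring
      linarith
    · obtain ⟨n, rfl⟩ := Nat.exists_eq_add_of_le hmJ
      have h1 : Real.exp J ≤ Real.exp (J + n : ℕ) := Real.exp_le_exp.2 (by exact_mod_cast hmJ)
      rw [← ws_add hs (fun k => g k * Gf a (ξ k) ^ 2) (hone J) h1,
        ← intervalIntegral.integral_add_adjacent_intervals (Gf_ii h 1 (Real.exp J)) (Gf_ii h _ _),
        sum_windows hs, int_windows h]
      have h2 : ∀ j ∈ Finset.range n, 
          c * (∫ u in (Real.exp (J + j : ℕ))..(Real.exp 1 * Real.exp (J + j : ℕ)), Gf a u ^ 2) -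
            3 * c * Real.exp (J + j) ^ (-κ) ≤ ws ξ (fun k => g k * Gf a (ξ k) ^ 2) (Real.exp (J + j : ℕ))
          (Real.exp 1 * Real.exp (J + j : ℕ)) := by
        intro j _
        have := hJ (J + j) (by omega)
        push_cast at this ⊢
        exact this
      have h3 := Finset.sum_le_sum h2
      rw [Finset.sum_sub_distrib, ← Finset.mul_sum, ← Finset.mul_sum] at h3
      have h4 := mul_le_mul_of_nonneg_left (hgeo J n) (show 0 ≤ 3 * c by positivity)
      have h5 := ws_nonneg (ξ := ξ) hf 1 (Real.exp J)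
      linarith

/-- when there are zeros to the right of the critical line -/
theorem glob_off (h : Dat a F Θ) (hΘ : 1 / 2 < Θ) (hΘ1 : Θ ≤ 1)
    (low : ∀ θ' : ℝ, θ' < Θ → ∀ c : ℝ, 0 < c → ∀ᶠ x : ℝ in atTop,
      x ^ (1 + θ') < ∫ y in x..(x + c * x), ‖PS a y‖)
    (hs : Seq ξ g) {η c : ℝ} (h0 : 0 < η) (hη : η ≤ 1) (hc : 0 < c) (hm : MassLow ξ g c η) :
    ∃ b : ℝ, 0 < b ∧ ∀ᶠ X : ℝ in atTop,
      X ^ b ≤ ws ξ (fun k => g k * Gf a (ξ k) ^ 2) X (Real.exp 1 * X) := by
  set κ : ℝ := min (η / 16) ((2 * Θ - 1) / 8) with hκ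
  have hκ0 : 0 < κ := lt_min (by linarith) (by linarith)
  have hκ1 : κ ≤ η / 16 := min_le_left _ _
  have hκ2 : κ ≤ (2 * Θ - 1) / 8 := min_le_right _ _
  obtain ⟨_, hlow⟩ := win_ws h hΘ.le hs hη (show 0 < η / 2 by linarith) (show η / 2 < η by linarith) hκ0
  have he : 1 < Real.exp 1 := Real.one_lt_exp_iff.2 one_pos
  set c0 : ℝ := (Real.exp 1 - 1) * Real.exp 1 ^ 2 with hc0
  have hc00 : 0 < c0 := by
    have : 0 < Real.exp 1 - 1 := by linarith
    positivity
  refine ⟨(2 * Θ - 1) / 2, by linarith, ?_⟩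
  filter_upwards [hlow c hc.le hm, low (Θ - κ) (by linarith) (Real.exp 1 - 1) (by linarith),
    ev_rpow (8 * c0) (show 2 * Θ - 1 - η / 2 + κ < 2 * Θ - 1 - 2 * κ by linarith),
    ev_rpow (4 * c0 / c) (show (2 * Θ - 1) / 2 < 2 * Θ - 1 - 2 * κ by linarith),
    eventually_ge_atTop 1] with X g1 g2 g3 g4 g5
  have hX : 0 < X := by linarith
  have hle : X < Real.exp 1 * X := by nlinarith
  have e1 : X + (Real.exp 1 - 1) * X = Real.exp 1 * X := by ring
  rw [e1] at g2
  set H : ℝ := ∫ u in X..(Real.exp 1 * X), Gf a u ^ 2 with hH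
  -- the lower bound for the mean square
  have hHlow : X ^ (2 * Θ - 1 - 2 * κ) ≤ c0 * H := by
    have hii : IntervalIntegrable (fun v => ‖PS a v‖ ^ 2) volume X (Real.exp 1 * X) := by
      have h1 := (Gf_ii h X (Real.exp 1 * X)).mul_continuousOn (g := fun u => u ^ 2) (by fun_prop)
      refine h1.congr_ae ?_
      refine (ae_restrict_iff' measurableSet_uIoc).2 (Eventually.of_forall fun u hu => ?_)
      rw [uIoc_of_le hle.le] at hu
      have hu0 : u ≠ 0 := (hX.trans hu.1).ne'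
      unfold Gf
      field_simp
    have h1 := cs hle (PS_ii h _ _) hii
    have h2 : ∫ v in X..(Real.exp 1 * X), ‖PS a v‖ ^ 2 ≤ (Real.exp 1 * X) ^ 2 * H := by
      rw [hH, ← intervalIntegral.integral_const_mul]
      refine intervalIntegral.integral_mono_on hle.le hii ((Gf_ii h _ _).const_mul _) fun u hu => ?_
      have hu0 : 0 < u := hX.trans_le hu.1
      have e2 : ‖PS a u‖ ^ 2 = u ^ 2 * Gf a u ^ 2 := by
        unfold Gf
        field_simp
      rw [e2]
      exact mul_le_mul_of_nonneg_right (pow_le_pow_left₀ hu0.le hu.2 2) (sq_nonneg _)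
    have h3 : (X ^ (1 + (Θ - κ))) ^ 2 ≤ (∫ v in X..(Real.exp 1 * X), ‖PS a v‖) ^ 2 :=
      pow_le_pow_left₀ (Real.rpow_nonneg hX.le _) g2.le 2
    have h4 : (X ^ (1 + (Θ - κ))) ^ 2 = X ^ (2 * Θ - 1 - 2 * κ) * X ^ 3 := by
      rw [← Real.rpow_natCast, ← Real.rpow_mul hX.le, ← Real.rpow_natCast, ← Real.rpow_add hX]
      congr 1
      push_cast
      ring
    have h5 : X ^ (2 * Θ - 1 - 2 * κ) * X ^ 3 ≤ (c0 * H) * X ^ 3 := by
      rw [← h4]
      refine (h3.trans h1).trans ?_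
      calc (Real.exp 1 * X - X) * ∫ v in X..(Real.exp 1 * X), ‖PS a v‖ ^ 2
          ≤ (Real.exp 1 * X - X) * ((Real.exp 1 * X) ^ 2 * H) :=
            mul_le_mul_of_nonneg_left h2 (by linarith)
        _ = _ := by rw [hc0]; ring
    exact le_of_mul_le_mul_right h5 (by positivity)
  have g6 := g1 1 one_pos
  rw [inv_one] at g6
  set W : ℝ := ws ξ (fun k => g k * Gf a (ξ k) ^ 2) X (Real.exp 1 * X) with hW
  have h7 : 8 * c0 * X ^ (2 * Θ - 1 - η / 2 + κ) ≤ c0 * H := g3.trans hHlow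
  have h8 : 8 * X ^ (2 * Θ - 1 - η / 2 + κ) ≤ H := by
    have : c0 * (8 * X ^ (2 * Θ - 1 - η / 2 + κ)) ≤ c0 * H := by linarith
    exact le_of_mul_le_mul_left this hc00
  have hP := Real.rpow_nonneg hX.le (2 * Θ - 1 - η / 2 + κ)
  have h9 : c * (H / 2) ≤ 2 * W := by
    refine le_trans ?_ (g6.trans (le_of_eq (by ring)))
    exact mul_le_mul_of_nonneg_left (by linarith) hc.le
  have h10 : 4 * c0 / c * X ^ ((2 * Θ - 1) / 2) ≤ c0 * H := g4.trans hHlow
  have h11 : c0 * (4 * X ^ ((2 * Θ - 1) / 2)) ≤ c0 * (c * H) := by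
    have := mul_le_mul_of_nonneg_left h10 hc.le
    have e3 : c * (4 * c0 / c * X ^ ((2 * Θ - 1) / 2)) = c0 * (4 * X ^ ((2 * Θ - 1) / 2)) := by
      field_simp
    rw [e3] at this
    linarith
  have h12 := le_of_mul_le_mul_left h11 hc00
  linarith

end

end Run7.h684.WS
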