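import Pool.Agent.Run7.h684.WS.Win

/-!
# Weighted sums over sparse sequences of points: global comparison with the integral
-/

set_option autoImplicit false

open MeasureTheory Filter Topology Set

namespace Run7.h684.WS

open Run7.h684.Smp

noncomputable section

variable {a : ℕ → ℂ} {F : ℂ → ℂ} {Θ : ℝ} {ξ g : ℕ → ℝ}

/-- a lower bound for the masses of the intervals `[x, x + h)`, `x^(1-η) ≤ h ≤ x` -/
def MassLow (ξ g : ℕ → ℝ) (c η : ℝ) : Prop :=
  ∀ᶠ x : ℝ in atTop, ∀ h : ℝ, x ^ (1 - η) ≤ h → h ≤ x → c * h ≤ ws ξ g x (x + h)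

/-- an upper bound for the masses of the intervals `[x, x + h)`, `x^(1-η) ≤ h ≤ x` -/
def MassUp (ξ g : ℕ → ℝ) (c η : ℝ) : Prop :=
  ∀ᶠ x : ℝ in atTop, ∀ h : ℝ, x ^ (1 - η) ≤ h → h ≤ x → ws ξ g x (x + h) ≤ c * h

theorem Gf_ii (h : Dat a F Θ) (x y : ℝ) : IntervalIntegrable (fun u => Gf a u ^ 2) volume x y := by
  obtain ⟨C, hC0, hC⟩ := h.sum' (show Θ < Θ + 1 by linarith)
  have h0 := h.h0
  have h1 : IntervalIntegrable (fun u : ℝ => (C * |u| ^ (Θ + 1)) ^ 2) volume x y := by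
    refine Continuous.intervalIntegrable ?_ _ _
    exact (continuous_const.mul (continuous_abs.rpow_const fun v => Or.inr (by linarith))).pow 2
  have hm : Measurable (fun u => Gf a u ^ 2) := by
    unfold Gf
    exact ((measurable_PS a).norm.div measurable_id).pow_const 2
  refine h1.mono_fun' hm.aestronglyMeasurable ?_
  refine Eventually.of_forall fun u => ?_
  simp only
  rw [Real.norm_of_nonneg (sq_nonneg _)]
  by_cases hu : 1 ≤ u
  · have g1 := hC u hu
    have g2 : Gf a u ≤ C * |u| ^ (Θ + 1) := by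
      unfold Gf
      rw [abs_of_nonneg (by linarith : (0 : ℝ) ≤ u)]
      exact (div_le_self (norm_nonneg _) hu).trans g1
    exact pow_le_pow_left₀ (div_nonneg (norm_nonneg _) (by linarith)) g2 2
  · have h2 : PS a u = 0 := PS_of_lt (not_le.1 hu)
    have h3 : Gf a u = 0 := by
      unfold Gf
      rw [h2, norm_zero, zero_div]
    rw [h3]
    have : (0 : ℝ) ≤ (C * |u| ^ (Θ + 1)) ^ 2 := sq_nonneg _
    simpa using this

/-- the cells satisfy the conditions on the masses -/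
theorem cells_ok {X η η1 : ℝ} {n : ℕ} (hX : 1 ≤ X) (hη : 0 ≤ η) (hn : 2 ≤ (n : ℝ)) (hn2 : (n : ℝ) ≤ 2 * X ^ η1)
    (hbig : 2 * X ^ η1 ≤ X ^ η) (i : ℕ) :
    (X * Real.exp (i / n)) ^ (1 - η) ≤ X * Real.exp ((i + 1 : ℕ) / n) - X * Real.exp (i / n) ∧
      X * Real.exp ((i + 1 : ℕ) / n) - X * Real.exp (i / n) ≤ X * Real.exp (i / n) := by
  have hX0 : 0 < X := by linarith
  have hn0 : (0 : ℝ) < n := by linarith
  set b : ℝ := X * Real.exp (i / n) with hb
  have hbX : X ≤ b := by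
    rw [hb]
    exact le_mul_of_one_le_right hX0.le (Real.one_le_exp (by positivity))
  have hb0 : 0 < b := by linarith
  have e1 : X * Real.exp ((i + 1 : ℕ) / n) - b = b * (Real.exp (1 / n) - 1) := by
    rw [hb, mul_sub, mul_one, mul_assoc, ← Real.exp_add]
    congr 3
    push_cast
    ring
  have hd1 : 1 / (n : ℝ) ≤ Real.exp (1 / n) - 1 := by
    have := Real.add_one_le_exp (1 / (n : ℝ))
    linarith
  have hd2 : Real.exp (1 / (n : ℝ)) - 1 ≤ 1 := by
    have h1 : |1 / (n : ℝ)| ≤ 1 := by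
      rw [abs_of_pos (by positivity), div_le_one hn0]
      linarith
    have h5 := Real.abs_exp_sub_one_le h1
    rw [abs_of_pos (show 0 < 1 / (n : ℝ) by positivity)] at h5
    have h6 : 2 * (1 / (n : ℝ)) ≤ 1 := by
      rw [mul_one_div, div_le_one hn0]
      exact hn
    exact ((le_abs_self _).trans h5).trans h6
  rw [e1]
  constructor
  · calc b ^ (1 - η) = b * b ^ (-η) := by
          rw [sub_eq_add_neg, Real.rpow_add hb0, Real.rpow_one]
      _ ≤ b * X ^ (-η) := by
          refine mul_le_mul_of_nonneg_left ?_ hb0.le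
          exact Real.rpow_le_rpow_of_nonpos hX0 hbX (by linarith)
      _ ≤ b * (1 / n) := by
          refine mul_le_mul_of_nonneg_left ?_ hb0.le
          rw [Real.rpow_neg hX0.le, ← one_div]
          exact one_div_le_one_div_of_le hn0 (hn2.trans hbig)
      _ ≤ _ := mul_le_mul_of_nonneg_left hd1 hb0.le
  · calc b * (Real.exp (1 / n) - 1) ≤ b * 1 := mul_le_mul_of_nonneg_left hd2 hb0.le
      _ = b := mul_one b

/-- the comparison on one window -/
theorem win_ws (h : Dat a F Θ) (hΘ : 1 / 2 ≤ Θ) (hs : Seq ξ g) {η η1 κ : ℝ} (hη : η ≤ 1) (h1 : 0 < η1)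
    (h2 : η1 < η) (hκ : 0 < κ) :
    (∀ c : ℝ, MassUp ξ g c η → ∀ᶠ X : ℝ in atTop, ∀ lam : ℝ, 0 < lam →
      ws ξ (fun k => g k * Gf a (ξ k) ^ 2) X (Real.exp 1 * X) ≤
        c * ((1 + lam) * (∫ u in X..(Real.exp 1 * X), Gf a u ^ 2) +
          (1 + lam⁻¹) * X ^ (2 * Θ - 1 - η1 + κ))) ∧
    (∀ c : ℝ, 0 ≤ c → MassLow ξ g c η → ∀ᶠ X : ℝ in atTop, ∀ lam : ℝ, 0 < lam →
        c * ((∫ u in X..(Real.exp 1 * X), Gf a u ^ 2) - (1 + lam⁻¹) * X ^ (2 * Θ - 1 - η1 + κ)) ≤
          (1 + lam) * ws ξ (fun k => g k * Gf a (ξ k) ^ 2) X (Real.exp 1 * X)) := by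
  have t1 := ev_rpow 2 h2
  have t2 : ∀ᶠ X : ℝ in atTop, 2 ≤ X ^ η1 := (tendsto_rpow_atTop h1).eventually_ge_atTop _
  have hw := win_osc h hΘ h1 (h2.le.trans hη) hκ
  -- the common part
  have setup : ∀ X : ℝ, 1 ≤ X → ∀ n : ℕ, 0 < n →
      StrictMono (fun i : ℕ => X * Real.exp (i / n)) ∧ X * Real.exp ((0 : ℕ) / n) = X ∧
        X * Real.exp ((n : ℕ) / n) = Real.exp 1 * X := by
    intro X hX n hn
    have hn' : (0 : ℝ) < n := by exact_mod_cast hn
    refine ⟨fun i j hij => ?_, by simp, by rw [div_self hn'.ne', mul_comm]⟩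
    have h3 : (i : ℝ) < j := by exact_mod_cast hij
    have h4 : (i : ℝ) / n < j / n := div_lt_div_of_pos_right h3 hn'
    exact mul_lt_mul_of_pos_left (Real.exp_lt_exp.2 h4) (by linarith)
  constructor
  · intro c hm
    obtain ⟨x0, hx0⟩ := eventually_atTop.1 hm
    filter_upwards [hw, t1, t2, eventually_ge_atTop x0, eventually_ge_atTop 1] with X hX a1 a2 a3 a4 lam hl
    obtain ⟨n, z, b1, b2, b3, b4, b5, b6⟩ := hX
    obtain ⟨s1, s2, s3⟩ := setup X a4 n b1
    have key := win_up hs (G := Gf a) (a := fun i : ℕ => X * Real.exp (i / n)) (z := z) (c := c)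
      (lam := lam) (n := n) s1 hl b4 (Gf_ii h) b5 (by
        intro i _
        obtain ⟨g1, g2⟩ := cells_ok a4 (by linarith) (a2.trans b2) b3 a1 i
        have g3 : x0 ≤ X * Real.exp (i / n) := by
          refine a3.trans ?_
          exact le_mul_of_one_le_right (by linarith) (Real.one_le_exp (by positivity))
        have g4 := hx0 _ g3 _ g1 g2
        rwa [add_sub_cancel] at g4)
    have hcc : 0 ≤ c := by
      -- the masses are nonnegative
      obtain ⟨g1, g2⟩ := cells_ok a4 (by linarith) (a2.trans b2) b3 a1 0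
      have g3 : x0 ≤ X * Real.exp ((0 : ℕ) / n) := by
        rw [s2]
        exact a3
      have g4 := (ws_nonneg hs.pos _ _).trans (hx0 _ g3 _ g1 g2)
      have g5 : 0 < X * Real.exp ((0 + 1 : ℕ) / n) - X * Real.exp ((0 : ℕ) / n) := by
        have := s1 (Nat.lt_succ_self 0)
        simp only at this
        linarith
      by_contra hcon
      push Not at hcon
      have := mul_neg_of_neg_of_pos hcon g5
      linarith
    simp only [s2, s3] at key
    refine key.trans ?_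
    refine mul_le_mul_of_nonneg_left (add_le_add le_rfl ?_) hcc
    exact mul_le_mul_of_nonneg_left b6 (by positivity)
  · intro c hc hm
    obtain ⟨x0, hx0⟩ := eventually_atTop.1 hm
    filter_upwards [hw, t1, t2, eventually_ge_atTop x0, eventually_ge_atTop 1] with X hX a1 a2 a3 a4 lam hl
    obtain ⟨n, z, b1, b2, b3, b4, b5, b6⟩ := hX
    obtain ⟨s1, s2, s3⟩ := setup X a4 n b1
    have key := win_low hs (G := Gf a) (a := fun i : ℕ => X * Real.exp (i / n)) (z := z) (c := c)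
      (lam := lam) (n := n) s1 hl hc (Gf_ii h) b5 (by
        intro i _
        obtain ⟨g1, g2⟩ := cells_ok a4 (by linarith) (a2.trans b2) b3 a1 i
        have g3 : x0 ≤ X * Real.exp (i / n) := by
          refine a3.trans ?_
          exact le_mul_of_one_le_right (by linarith) (Real.one_le_exp (by positivity))
        have g4 := hx0 _ g3 _ g1 g2
        rwa [add_sub_cancel] at g4)
    simp only [s2, s3] at key
    refine le_trans ?_ key
    refine mul_le_mul_of_nonneg_left (sub_le_sub le_rfl ?_) hc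
    exact mul_le_mul_of_nonneg_left b6 (by positivity)

/-- the windows, when there are no zeros to the right of the critical line -/
theorem win_half (h : Dat a F (1 / 2)) (hs : Seq ξ g) {η : ℝ} (h0 : 0 < η) (hη : η ≤ 1) :
    ∃ κ : ℝ, 0 < κ ∧
    (∀ c : ℝ, 0 ≤ c → MassUp ξ g c η → ∀ᶠ X : ℝ in atTop,
      ws ξ (fun k => g k * Gf a (ξ k) ^ 2) X (Real.exp 1 * X) ≤
        c * (∫ u in X..(Real.exp 1 * X), Gf a u ^ 2) + 3 * c * X ^ (-κ)) ∧
    (∀ c : ℝ, 0 ≤ c → MassLow ξ g c η → ∀ᶠ X : ℝ in atTop,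
        c * (∫ u in X..(Real.exp 1 * X), Gf a u ^ 2) - 3 * c * X ^ (-κ) ≤
          ws ξ (fun k => g k * Gf a (ξ k) ^ 2) X (Real.exp 1 * X)) := by
  set κ : ℝ := η / 16 with hκ
  have hκ0 : 0 < κ := by rw [hκ]; linarith
  obtain ⟨hup, hlow⟩ := win_ws h le_rfl hs hη (show 0 < 8 * κ by linarith) (show 8 * κ < η by linarith) hκ0
  -- the integral over the window is small
  have hH : ∀ᶠ X : ℝ in atTop, ∫ u in X..(Real.exp 1 * X), Gf a u ^ 2 ≤ X ^ κ := by
    set k : ℝ := min (κ / 4) (1 / 4) with hk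
    have hk0 : 0 < k := lt_min (by linarith) (by norm_num)
    have hk1 : k ≤ κ / 4 := min_le_left _ _
    have hk2 : k ≤ 1 / 4 := min_le_right _ _
    obtain ⟨C, hC0, hC⟩ := h.sum' (σ := 1 / 2 + k) (by linarith)
    filter_upwards [ev_rpow (C ^ 2 * (Real.exp 1 - 1)) (show 2 * k < κ by linarith), eventually_ge_atTop 1]
      with X g1 g2
    have hX : 0 < X := by linarith
    have he : 1 ≤ Real.exp 1 := Real.one_le_exp zero_le_one
    have hle : X ≤ Real.exp 1 * X := le_mul_of_one_le_left hX.le he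
    have g3 : ∀ u ∈ Icc X (Real.exp 1 * X), Gf a u ^ 2 ≤ C ^ 2 * X ^ (2 * k - 1) := by
      intro u hu
      have hu0 : 0 < u := hX.trans_le hu.1
      have g4 := hC u (g2.trans hu.1)
      have g5 : Gf a u ≤ C * u ^ (k - 1 / 2) := by
        unfold Gf
        rw [div_le_iff₀ hu0]
        refine g4.trans (le_of_eq ?_)
        rw [mul_assoc, ← Real.rpow_add_one hu0.ne']
        congr 2
        ring
      have g6 : u ^ (k - 1 / 2) ≤ X ^ (k - 1 / 2) := Real.rpow_le_rpow_of_nonpos hX hu.1 (by linarith)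
      have g7 : Gf a u ≤ C * X ^ (k - 1 / 2) := g5.trans (mul_le_mul_of_nonneg_left g6 hC0)
      have e3 : (X ^ (k - 1 / 2)) ^ 2 = X ^ (2 * k - 1) := by
        rw [← Real.rpow_natCast, ← Real.rpow_mul hX.le]
        congr 1
        push_cast
        ring
      refine (pow_le_pow_left₀ (div_nonneg (norm_nonneg _) hu0.le) g7 2).trans (le_of_eq ?_)
      rw [mul_pow, e3]
    calc ∫ u in X..(Real.exp 1 * X), Gf a u ^ 2 ≤ ∫ u in X..(Real.exp 1 * X), C ^ 2 * X ^ (2 * k - 1) :=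
          intervalIntegral.integral_mono_on hle (Gf_ii h _ _) intervalIntegrable_const g3
      _ = (C ^ 2 * (Real.exp 1 - 1)) * (X ^ (2 * k - 1) * X) := by
          rw [intervalIntegral.integral_const, smul_eq_mul]
          ring
      _ = (C ^ 2 * (Real.exp 1 - 1)) * X ^ (2 * k) := by
          rw [← Real.rpow_add_one hX.ne']
          congr 2
          ring
      _ ≤ X ^ κ := g1
  refine ⟨κ, hκ0, fun c hc hm => ?_, fun c hc hm => ?_⟩
  · filter_upwards [hup c hm, hH, eventually_ge_atTop 1] with X g1 g2 g3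
    have hX : 0 < X := by linarith
    have g4 := g1 (X ^ (-(2 * κ))) (Real.rpow_pos_of_pos hX _)
    refine g4.trans ?_
    have e1 : (X ^ (-(2 * κ)))⁻¹ = X ^ (2 * κ) := by
      rw [Real.rpow_neg hX.le, inv_inv]
    have e2 : (2 * (1 / 2 : ℝ) - 1 - 8 * κ + κ) = -(7 * κ) := by ring
    rw [e1, e2]
    have h1 : X ^ (-(2 * κ)) * (∫ u in X..(Real.exp 1 * X), Gf a u ^ 2) ≤ X ^ (-κ) := by
      calc X ^ (-(2 * κ)) * (∫ u in X..(Real.exp 1 * X), Gf a u ^ 2) ≤ X ^ (-(2 * κ)) * X ^ κ :=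
            mul_le_mul_of_nonneg_left g2 (Real.rpow_nonneg hX.le _)
        _ = X ^ (-κ) := by
            rw [← Real.rpow_add hX]
            congr 1
            ring
    have h2 : (1 + X ^ (2 * κ)) * X ^ (-(7 * κ)) ≤ 2 * X ^ (-κ) := by
      have g5 : 1 ≤ X ^ (2 * κ) := Real.one_le_rpow g3 (by linarith)
      calc (1 + X ^ (2 * κ)) * X ^ (-(7 * κ)) ≤ (2 * X ^ (2 * κ)) * X ^ (-(7 * κ)) :=
            mul_le_mul_of_nonneg_right (by linarith) (Real.rpow_nonneg hX.le _)
        _ = 2 * X ^ (-(5 * κ)) := by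
            rw [mul_assoc, ← Real.rpow_add hX]
            congr 2
            ring
        _ ≤ 2 * X ^ (-κ) := by
            have := Real.rpow_le_rpow_of_exponent_le g3 (show -(5 * κ) ≤ -κ by linarith)
            linarith
    have h3 : (1 + X ^ (-(2 * κ))) * (∫ u in X..(Real.exp 1 * X), Gf a u ^ 2) +
        (1 + X ^ (2 * κ)) * X ^ (-(7 * κ)) ≤ (∫ u in X..(Real.exp 1 * X), Gf a u ^ 2) + 3 * X ^ (-κ) := by
      linarith
    calc c * ((1 + X ^ (-(2 * κ))) * (∫ u in X..(Real.exp 1 * X), Gf a u ^ 2) +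
        (1 + X ^ (2 * κ)) * X ^ (-(7 * κ))) ≤ c * ((∫ u in X..(Real.exp 1 * X), Gf a u ^ 2) + 3 * X ^ (-κ)) :=
          mul_le_mul_of_nonneg_left h3 hc
      _ = _ := by ring
  · filter_upwards [hlow c hc hm, hH, eventually_ge_atTop 1] with X g1 g2 g3
    have hX : 0 < X := by linarith
    have hl0 : 0 < X ^ (-(2 * κ)) := Real.rpow_pos_of_pos hX _
    have g4 := g1 (X ^ (-(2 * κ))) hl0
    have e1 : (X ^ (-(2 * κ)))⁻¹ = X ^ (2 * κ) := by
      rw [Real.rpow_neg hX.le, inv_inv]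
    have e2 : (2 * (1 / 2 : ℝ) - 1 - 8 * κ + κ) = -(7 * κ) := by ring
    rw [e1, e2] at g4
    set H : ℝ := ∫ u in X..(Real.exp 1 * X), Gf a u ^ 2 with hHd
    set W : ℝ := ws ξ (fun k => g k * Gf a (ξ k) ^ 2) X (Real.exp 1 * X) with hW
    have hW0 : 0 ≤ W := ws_nonneg (fun k => mul_nonneg (hs.pos k) (sq_nonneg _)) _ _
    have h1 : X ^ (-(2 * κ)) * H ≤ X ^ (-κ) := by
      calc X ^ (-(2 * κ)) * H ≤ X ^ (-(2 * κ)) * X ^ κ := mul_le_mul_of_nonneg_left g2 hl0.le
        _ = X ^ (-κ) := by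
            rw [← Real.rpow_add hX]
            congr 1
            ring
    have h2 : (1 + X ^ (2 * κ)) * X ^ (-(7 * κ)) ≤ 2 * X ^ (-κ) := by
      have g5 : 1 ≤ X ^ (2 * κ) := Real.one_le_rpow g3 (by linarith)
      calc (1 + X ^ (2 * κ)) * X ^ (-(7 * κ)) ≤ (2 * X ^ (2 * κ)) * X ^ (-(7 * κ)) :=
            mul_le_mul_of_nonneg_right (by linarith) (Real.rpow_nonneg hX.le _)
        _ = 2 * X ^ (-(5 * κ)) := by
            rw [mul_assoc, ← Real.rpow_add hX]
            congr 2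
            ring
        _ ≤ 2 * X ^ (-κ) := by
            have := Real.rpow_le_rpow_of_exponent_le g3 (show -(5 * κ) ≤ -κ by linarith)
            linarith
    set lam : ℝ := X ^ (-(2 * κ)) with hlam
    set Q : ℝ := (1 + X ^ (2 * κ)) * X ^ (-(7 * κ)) with hQ
    have hQ0 : 0 ≤ Q := by
      have := Real.rpow_nonneg hX.le (2 * κ)
      have := Real.rpow_nonneg hX.le (-(7 * κ))
      positivity
    have hXk : 0 ≤ X ^ (-κ) := Real.rpow_nonneg hX.le _
    have hH0 : 0 ≤ H := by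
      rw [hHd]
      refine intervalIntegral.integral_nonneg ?_ fun u _ => sq_nonneg _
      exact le_mul_of_one_le_left hX.le (Real.one_le_exp zero_le_one)
    rcases le_or_gt (H - Q) 0 with hneg | hpos
    · have h5 : c * (H - Q) ≤ 0 := mul_nonpos_of_nonneg_of_nonpos hc hneg
      have h6 : c * Q ≤ c * (2 * X ^ (-κ)) := mul_le_mul_of_nonneg_left h2 hc
      have h7 : 0 ≤ c * X ^ (-κ) := mul_nonneg hc hXk
      nlinarith
    · -- multiply by `1 - lam`
      have h5 : c * (H - Q) * (1 - lam) ≤ W := by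
        rcases le_or_gt lam 1 with hl1 | hl1
        · have h6 : (1 - lam) * (c * (H - Q)) ≤ (1 - lam) * ((1 + lam) * W) :=
            mul_le_mul_of_nonneg_left g4 (by linarith)
          have h7 : (1 - lam) * ((1 + lam) * W) ≤ W := by nlinarith [mul_nonneg (sq_nonneg lam) hW0]
          linarith
        · have h6 : c * (H - Q) * (1 - lam) ≤ 0 :=
            mul_nonpos_of_nonneg_of_nonpos (mul_nonneg hc hpos.le) (by linarith)
          linarith
      have h6 : c * (lam * H) ≤ c * X ^ (-κ) := mul_le_mul_of_nonneg_left h1 hc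
      have h7 : c * Q ≤ c * (2 * X ^ (-κ)) := mul_le_mul_of_nonneg_left h2 hc
      have h8 : 0 ≤ c * (Q * lam) := mul_nonneg hc (mul_nonneg hQ0 hl0.le)
      nlinarith

end

end Run7.h684.WS
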