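import Pool.Agent.Run7.h684.WS.Fin

/-!
# Limits
-/

set_option autoImplicit false

open MeasureTheory Filter Topology Set

namespace Run7.h684.WS

open Run7.h684.Smp

noncomputable section

variable {a : ℕ → ℂ} {F : ℂ → ℂ} {Θ : ℝ} {ξ g : ℕ → ℝ}

/-- the weighted mean square over the points in `[1, x)` -/
def TT (a : ℕ → ℂ) (ξ g : ℕ → ℝ) (x : ℝ) : ℝ := ws ξ (fun k => g k * Gf a (ξ k) ^ 2) 1 x

/-- the integral -/
def II (a : ℕ → ℂ) (x : ℝ) : ℝ := ∫ u in (1 : ℝ)..x, Gf a u ^ 2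

theorem TT_mono (hs : Seq ξ g) {x y : ℝ} (hx : 1 ≤ x) (hxy : x ≤ y) : TT a ξ g x ≤ TT a ξ g y := by
  unfold TT
  rw [← ws_add hs _ hx hxy]
  have := ws_nonneg (ξ := ξ) (f := fun k => g k * Gf a (ξ k) ^ 2)
    (fun k => mul_nonneg (hs.pos k) (sq_nonneg _)) x y
  linarith

theorem lin_log {p q : ℝ} (h : p < q) (K : ℝ) : ∀ᶠ x : ℝ in atTop, p * Real.log x + K ≤ q * Real.log x := by
  filter_upwards [Real.tendsto_log_atTop.eventually_ge_atTop (K / (q - p))] with x hx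
  rw [div_le_iff₀ (by linarith)] at hx
  linarith

theorem exp_ceil {x : ℝ} (hx : 0 < x) : x ≤ Real.exp (⌈Real.log x⌉₊ : ℕ) := by
  calc x = Real.exp (Real.log x) := (Real.exp_log hx).symm
    _ ≤ _ := Real.exp_le_exp.2 (Nat.le_ceil _)

theorem exp_floor {x : ℝ} (hx : 1 ≤ x) : Real.exp (⌊Real.log x⌋₊ : ℕ) ≤ x := by
  calc Real.exp (⌊Real.log x⌋₊ : ℕ) ≤ Real.exp (Real.log x) :=
        Real.exp_le_exp.2 (Nat.floor_le (Real.log_nonneg hx))
    _ = x := Real.exp_log (by linarith)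

theorem lim_up (h : Dat a F (1 / 2)) (hs : Seq ξ g) {η c S : ℝ} (h0 : 0 < η) (hη : η ≤ 1) (hc : 0 ≤ c)
    (hm : MassUp ξ g c η) (hI : ∀ ε : ℝ, 0 < ε → ∀ᶠ x : ℝ in atTop, II a x ≤ (S + ε) * Real.log x) (hS : 0 ≤ S)
    {ε : ℝ} (hε : 0 < ε) : ∀ᶠ x : ℝ in atTop, TT a ξ g x ≤ (c * S + ε) * Real.log x := by
  obtain ⟨K, hK⟩ := (glob h hs h0 hη).1 c hc hm
  set e1 : ℝ := ε / (2 * (c + 1)) with he1
  have he10 : 0 < e1 := by positivity
  have htend : Tendsto (fun x : ℝ => Real.exp (⌈Real.log x⌉₊ : ℕ)) atTop atTop := by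
    refine Real.tendsto_exp_atTop.comp (tendsto_natCast_atTop_atTop.comp ?_)
    exact tendsto_nat_ceil_atTop.comp Real.tendsto_log_atTop
  filter_upwards [htend.eventually (hI e1 he10), eventually_ge_atTop 1,
    lin_log (show c * S + ε / 2 < c * S + ε by linarith) (c * (S + e1) + K)] with x g1 g2 g3
  have hx : 0 < x := by linarith
  rw [Real.log_exp] at g1
  have h1 : TT a ξ g x ≤ TT a ξ g (Real.exp (⌈Real.log x⌉₊ : ℕ)) := TT_mono hs g2 (exp_ceil hx)
  have h2 := hK ⌈Real.log x⌉₊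
  have h3 : (⌈Real.log x⌉₊ : ℝ) ≤ Real.log x + 1 := (Nat.ceil_lt_add_one (Real.log_nonneg g2)).le
  have h4 : c * II a (Real.exp (⌈Real.log x⌉₊ : ℕ)) ≤ c * ((S + e1) * (Real.log x + 1)) := by
    refine mul_le_mul_of_nonneg_left (g1.trans ?_) hc
    exact mul_le_mul_of_nonneg_left h3 (by linarith)
  have h5 : c * e1 ≤ ε / 2 := by
    rw [he1, mul_div_assoc', div_le_div_iff₀ (by positivity) (by norm_num)]
    nlinarith
  have h6 : 0 ≤ Real.log x := Real.log_nonneg g2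
  have h7 := mul_le_mul_of_nonneg_right h5 h6
  unfold TT II at *
  nlinarith

theorem lim_low (h : Dat a F (1 / 2)) (hs : Seq ξ g) {η c S : ℝ} (h0 : 0 < η) (hη : η ≤ 1) (hc : 0 ≤ c)
    (hm : MassLow ξ g c η) (hI : ∀ ε : ℝ, 0 < ε → ∀ᶠ x : ℝ in atTop, (S - ε) * Real.log x ≤ II a x) (hS : 0 ≤ S)
    {ε : ℝ} (hε : 0 < ε) : ∀ᶠ x : ℝ in atTop, (c * S - ε) * Real.log x ≤ TT a ξ g x := by
  obtain ⟨K, hK⟩ := (glob h hs h0 hη).2 c hc hm
  set e1 : ℝ := ε / (2 * (c + 1)) with he1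
  have he10 : 0 < e1 := by positivity
  have htend : Tendsto (fun x : ℝ => Real.exp (⌊Real.log x⌋₊ : ℕ)) atTop atTop := by
    refine Real.tendsto_exp_atTop.comp (tendsto_natCast_atTop_atTop.comp ?_)
    exact tendsto_nat_floor_atTop.comp Real.tendsto_log_atTop
  filter_upwards [htend.eventually (hI e1 he10), eventually_ge_atTop 1,
    lin_log (show c * S - ε < c * S - ε / 2 by linarith) (c * S + K)] with x g1 g2 g3
  have hx : 0 < x := by linarith
  rw [Real.log_exp] at g1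
  have h1 : TT a ξ g (Real.exp (⌊Real.log x⌋₊ : ℕ)) ≤ TT a ξ g x :=
    TT_mono hs (Real.one_le_exp (Nat.cast_nonneg _)) (exp_floor g2)
  have h2 := hK ⌊Real.log x⌋₊
  have h6 : 0 ≤ Real.log x := Real.log_nonneg g2
  have h3 : Real.log x - 1 ≤ (⌊Real.log x⌋₊ : ℝ) := (Nat.sub_one_lt_floor _).le
  have h3' : (⌊Real.log x⌋₊ : ℝ) ≤ Real.log x := Nat.floor_le h6
  have h4 : c * ((S - e1) * (⌊Real.log x⌋₊ : ℝ)) ≤ c * II a (Real.exp (⌊Real.log x⌋₊ : ℕ)) :=
    mul_le_mul_of_nonneg_left g1 hc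
  have h5 : c * e1 ≤ ε / 2 := by
    rw [he1, mul_div_assoc', div_le_div_iff₀ (by positivity) (by norm_num)]
    nlinarith
  have h7 := mul_le_mul_of_nonneg_right h5 h6
  have h8 : c * S * (Real.log x - 1) ≤ c * S * (⌊Real.log x⌋₊ : ℝ) :=
    mul_le_mul_of_nonneg_left h3 (by positivity)
  have h9 : c * e1 * (⌊Real.log x⌋₊ : ℝ) ≤ c * e1 * Real.log x :=
    mul_le_mul_of_nonneg_left h3' (by positivity)
  unfold TT II at *
  nlinarith

theorem inf_low (h : Dat a F (1 / 2)) (hs : Seq ξ g) {η c : ℝ} (h0 : 0 < η) (hη : η ≤ 1) (hc : 0 < c)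
    (hm : MassLow ξ g c η) (hI : ∀ B : ℝ, ∀ᶠ x : ℝ in atTop, B * Real.log x ≤ II a x) (B : ℝ) :
    ∀ᶠ x : ℝ in atTop, B * Real.log x ≤ TT a ξ g x := by
  have h1 := lim_low h hs h0 hη hc.le hm (S := (|B| + 1) / c) (fun ε hε => by
    filter_upwards [hI ((|B| + 1) / c), Real.tendsto_log_atTop.eventually_ge_atTop 0] with x g1 g2
    refine le_trans ?_ g1
    exact mul_le_mul_of_nonneg_right (by linarith) g2) (by positivity) one_pos
  filter_upwards [h1, Real.tendsto_log_atTop.eventually_ge_atTop 0] with x g1 g2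
  have e1 : c * ((|B| + 1) / c) - 1 = |B| := by
    field_simp
    ring
  rw [e1] at g1
  exact (mul_le_mul_of_nonneg_right (le_abs_self B) g2).trans g1

theorem inf_off (hs : Seq ξ g) {b : ℝ} (hb : 0 < b) (hw : ∀ᶠ X : ℝ in atTop,
      X ^ b ≤ ws ξ (fun k => g k * Gf a (ξ k) ^ 2) X (Real.exp 1 * X)) (B : ℝ) :
    ∀ᶠ x : ℝ in atTop, B * Real.log x ≤ TT a ξ g x := by
  have htend : Tendsto (fun x : ℝ => x / Real.exp 1) atTop atTop :=
    tendsto_id.atTop_div_const (Real.exp_pos 1)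
  have h1 : ∀ᶠ x : ℝ in atTop, B * Real.log x ≤ (x / Real.exp 1) ^ b := by
    have h2 := (isLittleO_log_rpow_atTop hb).bound (show (0 : ℝ) < ((|B| + 1) * Real.exp 1 ^ b)⁻¹ by positivity)
    filter_upwards [h2, eventually_ge_atTop 1] with x g1 g2
    have hx : 0 < x := by linarith
    rw [Real.norm_eq_abs, Real.norm_eq_abs, abs_of_nonneg (Real.log_nonneg g2),
      abs_of_nonneg (Real.rpow_nonneg hx.le _), inv_mul_eq_div, le_div_iff₀ (by positivity)] at g1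
    rw [Real.div_rpow hx.le (Real.exp_pos _).le, le_div_iff₀ (by positivity)]
    have h3 : B * Real.log x ≤ (|B| + 1) * Real.log x :=
      mul_le_mul_of_nonneg_right ((le_abs_self B).trans (by linarith)) (Real.log_nonneg g2)
    calc B * Real.log x * Real.exp 1 ^ b ≤ (|B| + 1) * Real.log x * Real.exp 1 ^ b :=
          mul_le_mul_of_nonneg_right h3 (by positivity)
      _ = Real.log x * ((|B| + 1) * Real.exp 1 ^ b) := by ring
      _ ≤ x ^ b := g1
  filter_upwards [htend.eventually hw, htend.eventually_ge_atTop 1, h1] with x g1 g2 g3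
  have e1 : Real.exp 1 * (x / Real.exp 1) = x := by field_simp
  rw [e1] at g1
  have hle : x / Real.exp 1 ≤ x := by
    rw [← e1]
    have : 1 ≤ Real.exp 1 := Real.one_le_exp zero_le_one
    rw [e1]
    calc x / Real.exp 1 ≤ Real.exp 1 * (x / Real.exp 1) := le_mul_of_one_le_left (by linarith) this
      _ = x := e1
  unfold TT
  rw [← ws_add hs _ g2 hle]
  have h5 := ws_nonneg (ξ := ξ) (f := fun k => g k * Gf a (ξ k) ^ 2)
    (fun k => mul_nonneg (hs.pos k) (sq_nonneg _)) 1 (x / Real.exp 1)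
  linarith

end

end Run7.h684.WS
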