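import Pool.Agent.Run7.h684.WS.Mass
import Pool.Agent.W120.WM.Lim

/-!
# The weak Mertens hypothesis over sparse sequences
-/

set_option autoImplicit false

open MeasureTheory Filter Topology Set

namespace Run7.h684.WS

open Run7.h684.Smp
open Pool.Agent.W120.WM (ZC NT msq)

noncomputable section

variable {ξ g : ℕ → ℝ}

/-- the sum over the zeros -/
def SZ : ℝ := ∑' ρ : NT, 1 / ‖(ρ : ℂ) * deriv riemannZeta ρ‖ ^ 2

theorem SZ_nonneg : 0 ≤ SZ := tsum_nonneg fun ρ => by positivity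

theorem Gf_mob (u : ℝ) : Gf mobC u ^ 2 =
    ((∑ n ∈ Finset.Icc 1 ⌊u⌋₊, ((ArithmeticFunction.moebius n : ℤ) : ℝ)) / u) ^ 2 := by
  unfold Gf
  rw [PS_mobC]
  unfold merErr
  rw [div_pow, sq_abs, div_pow]

theorem II_msq (x : ℝ) : II mobC x = msq 1 x := by
  unfold II msq
  simp_rw [Gf_mob]

theorem free_of_ZC (h : ZC) : ∀ s : ℂ, 1 / 2 < s.re → riemannZeta s ≠ 0 := by
  intro s hs h0
  have h1 : s.re < 1 := by
    by_contra hcon
    exact riemannZeta_ne_zero_of_one_le_re (not_lt.1 hcon) h0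
  have h2 := (h.1 s ⟨h0, by linarith, h1⟩).1
  linarith

theorem II_lim (h : ZC) : Tendsto (fun x : ℝ => II mobC x / Real.log x) atTop (𝓝 SZ) := by
  have h1 := (Pool.Agent.W120.WM.final3 1 one_pos le_rfl).1 h
  rw [one_mul] at h1
  refine h1.congr' ?_
  filter_upwards with x
  rw [II_msq, sub_self, Real.rpow_zero]

theorem II_inf (h : ¬ ZC) : Tendsto (fun x : ℝ => II mobC x / Real.log x) atTop atTop := by
  have h1 := (Pool.Agent.W120.WM.final3 1 one_pos le_rfl).2 h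
  refine h1.congr' ?_
  filter_upwards with x
  rw [II_msq, sub_self, Real.rpow_zero]

theorem logpos : ∀ᶠ x : ℝ in atTop, 0 < Real.log x := Real.tendsto_log_atTop.eventually_gt_atTop 0

theorem ev_of_lim {T : ℝ → ℝ} {S : ℝ} (h : Tendsto (fun x : ℝ => T x / Real.log x) atTop (𝓝 S)) {ε : ℝ}
    (hε : 0 < ε) : (∀ᶠ x : ℝ in atTop, T x ≤ (S + ε) * Real.log x) ∧
      ∀ᶠ x : ℝ in atTop, (S - ε) * Real.log x ≤ T x := by
  have h1 := h.eventually (Metric.ball_mem_nhds S hε)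
  constructor
  · filter_upwards [h1, logpos] with x g1 g2
    rw [Real.dist_eq, abs_lt] at g1
    rw [← div_le_iff₀ g2]
    linarith [g1.2]
  · filter_upwards [h1, logpos] with x g1 g2
    rw [Real.dist_eq, abs_lt] at g1
    rw [← le_div_iff₀ g2]
    linarith [g1.1]

theorem ev_of_inf {T : ℝ → ℝ} (h : Tendsto (fun x : ℝ => T x / Real.log x) atTop atTop) (B : ℝ) :
    ∀ᶠ x : ℝ in atTop, B * Real.log x ≤ T x := by
  filter_upwards [h.eventually_ge_atTop B, logpos] with x g1 g2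
  rwa [← le_div_iff₀ g2]

theorem lim_of_ev {T : ℝ → ℝ} {S : ℝ} (h1 : ∀ ε : ℝ, 0 < ε → ∀ᶠ x : ℝ in atTop, T x ≤ (S + ε) * Real.log x)
    (h2 : ∀ ε : ℝ, 0 < ε → ∀ᶠ x : ℝ in atTop, (S - ε) * Real.log x ≤ T x) :
    Tendsto (fun x : ℝ => T x / Real.log x) atTop (𝓝 S) := by
  rw [Metric.tendsto_nhds]
  intro ε hε
  filter_upwards [h1 (ε / 2) (by linarith), h2 (ε / 2) (by linarith), logpos] with x g1 g2 g3
  rw [Real.dist_eq, abs_lt]
  rw [← div_le_iff₀ g3] at g1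
  rw [← le_div_iff₀ g3] at g2
  constructor <;> linarith

theorem inf_of_ev {T : ℝ → ℝ} (h : ∀ B : ℝ, ∀ᶠ x : ℝ in atTop, B * Real.log x ≤ T x) :
    Tendsto (fun x : ℝ => T x / Real.log x) atTop atTop := by
  rw [tendsto_atTop]
  intro B
  filter_upwards [h B, logpos] with x g1 g2
  rwa [le_div_iff₀ g2]

/-- upper bound -/
theorem up_ZC (hZ : ZC) (hs : Seq ξ g) {η c : ℝ} (h0 : 0 < η) (hη : η ≤ 1) (hc : 0 ≤ c) (hm : MassUp ξ g c η)
    {ε : ℝ} (hε : 0 < ε) : ∀ᶠ x : ℝ in atTop, TT mobC ξ g x ≤ (c * SZ + ε) * Real.log x :=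
  lim_up (dat_mob le_rfl (free_of_ZC hZ)) hs h0 hη hc hm (fun _ h => (ev_of_lim (II_lim hZ) h).1) SZ_nonneg hε

/-- lower bound -/
theorem low_ZC (hZ : ZC) (hs : Seq ξ g) {η c : ℝ} (h0 : 0 < η) (hη : η ≤ 1) (hc : 0 ≤ c) (hm : MassLow ξ g c η)
    {ε : ℝ} (hε : 0 < ε) : ∀ᶠ x : ℝ in atTop, (c * SZ - ε) * Real.log x ≤ TT mobC ξ g x :=
  lim_low (dat_mob le_rfl (free_of_ZC hZ)) hs h0 hη hc hm (fun _ h => (ev_of_lim (II_lim hZ) h).2) SZ_nonneg hε

/-- the infinite limit, with no zeros off the line -/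
theorem inf_on (hZ : ¬ ZC) (hfree : ∀ s : ℂ, 1 / 2 < s.re → riemannZeta s ≠ 0) (hs : Seq ξ g) {η c : ℝ}
    (h0 : 0 < η) (hη : η ≤ 1) (hc : 0 < c) (hm : MassLow ξ g c η) (B : ℝ) :
    ∀ᶠ x : ℝ in atTop, B * Real.log x ≤ TT mobC ξ g x :=
  inf_low (dat_mob le_rfl hfree) hs h0 hη hc hm (ev_of_inf (II_inf hZ)) B

/-- the infinite limit, with zeros off the line -/
theorem inf_off' (hz : ¬ ∀ s : ℂ, 1 / 2 < s.re → riemannZeta s ≠ 0) (hs : Seq ξ g) {η c : ℝ}
    (h0 : 0 < η) (hη : η ≤ 1) (hc : 0 < c) (hm : MassLow ξ g c η) (B : ℝ) :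
    ∀ᶠ x : ℝ in atTop, B * Real.log x ≤ TT mobC ξ g x := by
  push Not at hz
  obtain ⟨s, hs1, hs2⟩ := hz
  obtain ⟨Θ, g1, g2, g3, g4⟩ := exists_sup (θ := 1 / 2) ⟨s, hs2, hs1⟩
  obtain ⟨b, hb, hw⟩ := glob_off (dat_mob g1.le g3) g1 g2 (fun θ' hθ' c hc => low_mob g1 g4 θ' hθ' c hc) hs h0 hη hc hm
  exact inf_off hs hb hw B

theorem inf_all (hZ : ¬ ZC) (hs : Seq ξ g) {η c : ℝ} (h0 : 0 < η) (hη : η ≤ 1) (hc : 0 < c)
    (hm : MassLow ξ g c η) (B : ℝ) : ∀ᶠ x : ℝ in atTop, B * Real.log x ≤ TT mobC ξ g x := by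
  by_cases hfree : ∀ s : ℂ, 1 / 2 < s.re → riemannZeta s ≠ 0
  · exact inf_on hZ hfree hs h0 hη hc hm B
  · exact inf_off' hfree hs h0 hη hc hm B

/-- the limit -/
theorem lim_ZC (hZ : ZC) (hs : Seq ξ g) {η : ℝ} (h0 : 0 < η) (hη : η ≤ 1)
    (hup : ∀ ε : ℝ, 0 < ε → MassUp ξ g (1 + ε) η) (hlow : ∀ ε : ℝ, 0 < ε → MassLow ξ g (1 - ε) η) :
    Tendsto (fun x : ℝ => TT mobC ξ g x / Real.log x) atTop (𝓝 SZ) := by
  have hS := SZ_nonneg
  refine lim_of_ev (fun ε hε => ?_) (fun ε hε => ?_)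
  · set e1 : ℝ := ε / (2 * (SZ + 1)) with he1
    have he10 : 0 < e1 := by positivity
    filter_upwards [up_ZC hZ hs h0 hη (by linarith) (hup e1 he10) (show 0 < ε / 2 by linarith),
      Real.tendsto_log_atTop.eventually_ge_atTop 0] with x g1 g2
    refine g1.trans (mul_le_mul_of_nonneg_right ?_ g2)
    have h5 : e1 * SZ ≤ ε / 2 := by
      rw [he1, div_mul_eq_mul_div, div_le_div_iff₀ (by positivity) (by norm_num)]
      nlinarith
    linarith
  · set e1 : ℝ := min (1 / 2) (ε / (2 * (SZ + 1))) with he1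
    have he10 : 0 < e1 := lt_min (by norm_num) (by positivity)
    have he12 : e1 ≤ 1 / 2 := min_le_left _ _
    have he13 : e1 ≤ ε / (2 * (SZ + 1)) := min_le_right _ _
    filter_upwards [low_ZC hZ hs h0 hη (by linarith) (hlow e1 he10) (show 0 < ε / 2 by linarith),
      Real.tendsto_log_atTop.eventually_ge_atTop 0] with x g1 g2
    refine le_trans (mul_le_mul_of_nonneg_right ?_ g2) g1
    have h5 : e1 * SZ ≤ ε / 2 := by
      refine (mul_le_mul_of_nonneg_right he13 hS).trans ?_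
      rw [div_mul_eq_mul_div, div_le_div_iff₀ (by positivity) (by norm_num)]
      nlinarith
    linarith

/-- the primes -/
theorem prime_lim (hZ : ZC) : Tendsto (fun x : ℝ => TT mobC xiN gP x / Real.log x) atTop (𝓝 SZ) :=
  lim_ZC hZ seq_prime (show (0 : ℝ) < 1 / 8 by norm_num) (by norm_num)
    (fun _ h => massUp_prime (free_of_ZC hZ) h) (fun _ h => massLow_prime (free_of_ZC hZ) h)

theorem prime_inf (hZ : ¬ ZC) : Tendsto (fun x : ℝ => TT mobC xiN gP x / Real.log x) atTop atTop := by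
  refine inf_of_ev fun B => ?_
  obtain ⟨c, η, hc, h0, hη, hm⟩ := massLow_hoh
  exact inf_all hZ seq_prime h0 hη hc hm B

/-- the powers -/
theorem pow_lim {A : ℝ} (hA : 1 ≤ A) (hZ : ZC) :
    Tendsto (fun x : ℝ => TT mobC (xiA A) (gA A) x / Real.log x) atTop (𝓝 SZ) := by
  have hA0 : 0 < A := by linarith
  exact lim_ZC hZ (seq_pow hA) (show (0 : ℝ) < 1 / (2 * A) by positivity)
    (by rw [div_le_one (by positivity)]; linarith)
    (fun _ h => massUp_pow hA h) (fun _ h => massLow_pow hA h)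

theorem pow_inf {A : ℝ} (hA : 1 ≤ A) (hZ : ¬ ZC) :
    Tendsto (fun x : ℝ => TT mobC (xiA A) (gA A) x / Real.log x) atTop atTop := by
  refine inf_of_ev fun B => ?_
  have hA0 : 0 < A := by linarith
  exact inf_all hZ (seq_pow hA) (show (0 : ℝ) < 1 / (2 * A) by positivity)
    (by rw [div_le_one (by positivity)]; linarith) (show (0 : ℝ) < 1 - 1 / 2 by norm_num)
    (massLow_pow hA (by norm_num)) B

/-- the Mertens function -/
def Mf (u : ℝ) : ℝ := ∑ n ∈ Finset.Icc 1 ⌊u⌋₊, ((ArithmeticFunction.moebius n : ℤ) : ℝ)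

/-- all points below `x` -/
theorem TT_eq (hs : Seq ξ g) {x : ℝ} (hx : 1 ≤ x) :
    TT mobC ξ g x = ∑ k ∈ Finset.range (idx ξ x), g k * (Mf (ξ k) / ξ k) ^ 2 := by
  unfold TT ws
  have h1 : idx ξ 1 ≤ idx ξ x := idx_mono hs hx
  rw [Finset.range_eq_Ico, ← Finset.sum_Ico_consecutive _ (Nat.zero_le _) h1]
  have h2 : ∑ k ∈ Finset.Ico 0 (idx ξ 1), g k * (Mf (ξ k) / ξ k) ^ 2 = 0 := by
    refine Finset.sum_eq_zero fun k hk => ?_
    rw [Finset.mem_Ico] at hk
    have h3 := (idx_lt hs 1 k).1 hk.2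
    have h4 : Mf (ξ k) = 0 := by
      unfold Mf
      rw [Nat.floor_eq_zero.2 h3]
      simp
    rw [h4]
    simp
  rw [h2, zero_add]
  refine Finset.sum_congr rfl fun k _ => ?_
  simp only
  rw [Gf_mob]
  rfl

theorem log_ratio : Tendsto (fun K : ℕ => Real.log (K + 1) / Real.log K) atTop (𝓝 1) := by
  have h1 := Real.tendsto_log_nat_add_one_sub_log
  have h2 : Tendsto (fun K : ℕ => Real.log K) atTop atTop :=
    Real.tendsto_log_atTop.comp tendsto_natCast_atTop_atTop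
  have h3 := h1.div_atTop h2
  have h4 : Tendsto (fun K : ℕ => 1 + (Real.log (K + 1) - Real.log K) / Real.log K) atTop (𝓝 (1 + 0)) :=
    tendsto_const_nhds.add h3
  rw [add_zero] at h4
  refine h4.congr' ?_
  filter_upwards [h2.eventually_gt_atTop 0] with K hK
  field_simp
  ring

/-- from the points of a sequence to the integers -/
theorem to_nat {T : ℝ → ℝ} {P : ℕ → ℝ} {A : ℝ} (hA : 0 < A) (hP : ∀ᶠ K : ℕ in atTop, A * P K = T (((K : ℝ) + 1) ^ A)) :
    (∀ S : ℝ, Tendsto (fun x : ℝ => T x / Real.log x) atTop (𝓝 S) →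
      Tendsto (fun K : ℕ => P K / Real.log K) atTop (𝓝 S)) ∧
    (Tendsto (fun x : ℝ => T x / Real.log x) atTop atTop →
      Tendsto (fun K : ℕ => P K / Real.log K) atTop atTop) := by
  have ht : Tendsto (fun K : ℕ => ((K : ℝ) + 1) ^ A) atTop atTop :=
    (tendsto_rpow_atTop hA).comp (tendsto_atTop_add_const_right _ _ tendsto_natCast_atTop_atTop)
  have h2 : Tendsto (fun K : ℕ => Real.log K) atTop atTop :=
    Real.tendsto_log_atTop.comp tendsto_natCast_atTop_atTop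
  have e : ∀ᶠ K : ℕ in atTop, (T (((K : ℝ) + 1) ^ A) / Real.log (((K : ℝ) + 1) ^ A)) *
      (Real.log (K + 1) / Real.log K) = P K / Real.log K := by
    filter_upwards [hP, h2.eventually_gt_atTop 0, eventually_ge_atTop 1] with K h1 h3 h4
    rw [← h1, Real.log_rpow (by positivity)]
    have h5 : 0 < Real.log ((K : ℝ) + 1) := Real.log_pos (by
      have : (1 : ℝ) ≤ K := by exact_mod_cast h4
      linarith)
    field_simp
  constructor
  · intro S hS
    have h1 := (hS.comp ht).mul log_ratio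
    rw [mul_one] at h1
    exact h1.congr' e
  · intro hS
    have h1 := (hS.comp ht).atTop_mul_pos one_pos log_ratio
    exact h1.congr' e

/-- the sum over the powers -/
theorem pow_sum {A : ℝ} (hA : 1 ≤ A) (K : ℕ) :
    A * ∑ k ∈ Finset.Icc 1 K, Mf ((k : ℝ) ^ A) ^ 2 / (k : ℝ) ^ (A + 1) =
      TT mobC (xiA A) (gA A) (((K : ℝ) + 1) ^ A) := by
  have hA0 : 0 < A := by linarith
  have hs := seq_pow hA
  have h1 : (1 : ℝ) ≤ ((K : ℝ) + 1) ^ A := Real.one_le_rpow (by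
    have := Nat.cast_nonneg (α := ℝ) K
    linarith) hA0.le
  have hidx : idx (xiA A) (((K : ℝ) + 1) ^ A) = K := by
    refine le_antisymm ?_ ?_
    · rw [le_idx hs]
      exact le_rfl
    · obtain ⟨r, hr⟩ : ∃ r : ℕ, r = idx (xiA A) (((K : ℝ) + 1) ^ A) := ⟨_, rfl⟩
      have h2 := (le_idx hs (((K : ℝ) + 1) ^ A) r).1 hr.symm.le
      rw [← hr]
      unfold xiA at h2
      rw [Real.rpow_le_rpow_iff (by positivity) (by positivity) hA0] at h2
      have h3 : (K : ℝ) ≤ r := by linarith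
      exact_mod_cast h3
  rw [TT_eq hs h1, hidx, Finset.mul_sum, Finset.sum_bij (fun (k : ℕ) _ => k - 1)]
  · intro k hk
    rw [Finset.mem_Icc] at hk
    rw [Finset.mem_range]
    omega
  · intro i hi j hj hij
    rw [Finset.mem_Icc] at hi hj
    omega
  · intro k hk
    rw [Finset.mem_range] at hk
    exact ⟨k + 1, by rw [Finset.mem_Icc]; omega, by omega⟩
  · intro k hk
    rw [Finset.mem_Icc] at hk
    have hk1 : ((k - 1 : ℕ) : ℝ) + 1 = k := by
      have : k - 1 + 1 = k := by omega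
      exact_mod_cast this
    have hk0 : (0 : ℝ) < k := by exact_mod_cast hk.1
    unfold gA xiA
    rw [hk1]
    have e1 : (k : ℝ) ^ (A + 1) = (k : ℝ) ^ A * k := Real.rpow_add_one hk0.ne' A
    have e2 : (k : ℝ) ^ (A - 1) = (k : ℝ) ^ A / k := Real.rpow_sub_one hk0.ne' A
    have h3 : 0 < (k : ℝ) ^ A := Real.rpow_pos_of_pos hk0 _
    rw [e1, e2]
    field_simp

/-- the sum over the primes -/
theorem prime_sum (N : ℕ) :
    1 * ∑ p ∈ (Finset.Icc 1 N).filter Nat.Prime, Real.log p * (Mf p / p) ^ 2 =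
      TT mobC xiN gP (((N : ℝ) + 1) ^ (1 : ℝ)) := by
  have h1 : (1 : ℝ) ≤ ((N : ℝ) + 1) ^ (1 : ℝ) := by
    rw [Real.rpow_one]
    have := Nat.cast_nonneg (α := ℝ) N
    linarith
  rw [TT_eq seq_prime h1, one_mul, Real.rpow_one, idx_nat]
  have e1 : ⌈(N : ℝ) + 1⌉₊ = N + 1 := by
    have : (N : ℝ) + 1 = ((N + 1 : ℕ) : ℝ) := by push_cast; rfl
    rw [this, Nat.ceil_natCast]
  rw [e1, Finset.sum_filter]
  unfold gP xiN
  rw [Finset.range_eq_Ico, ← Finset.sum_Ico_consecutive _ (Nat.zero_le 1) (by omega : 1 ≤ N + 1)]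
  have e2 : Finset.Ico 1 (N + 1) = Finset.Icc 1 N := by
    ext k
    simp
  rw [e2]
  have e3 : ∑ k ∈ Finset.Ico (0 : ℕ) 1, (if Nat.Prime k then Real.log k else 0) * (Mf k / k) ^ 2 = 0 := by
    simp
  rw [e3, zero_add]
  refine Finset.sum_congr rfl fun k _ => ?_
  split_ifs
  · rfl
  · rw [zero_mul]

/-- the equivalence with a bound, from the two limits -/
theorem bound_iff {P : ℕ → ℝ} {Q : Prop} {S : ℝ} (h1 : Q → Tendsto (fun K : ℕ => P K / Real.log K) atTop (𝓝 S))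
    (h2 : ¬ Q → Tendsto (fun K : ℕ => P K / Real.log K) atTop atTop) :
    Q ↔ ∃ C : ℝ, ∀ K : ℕ, 2 ≤ K → P K ≤ C * Real.log K := by
  constructor
  · intro hQ
    obtain ⟨C, hC⟩ := (h1 hQ).bddAbove_range
    refine ⟨C, fun K hK => ?_⟩
    have h3 : 0 < Real.log K := Real.log_pos (by exact_mod_cast (by omega : 1 < K))
    have h4 := hC ⟨K, rfl⟩
    simp only at h4
    rwa [div_le_iff₀ h3] at h4
  · rintro ⟨C, hC⟩
    by_contra hQ
    obtain ⟨K, hK1, hK2⟩ := (((h2 hQ).eventually_gt_atTop C).and (eventually_ge_atTop 2)).exists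
    have h3 : 0 < Real.log K := Real.log_pos (by exact_mod_cast (by omega : 1 < K))
    have h4 := hC K hK2
    rw [← div_le_iff₀ h3] at h4
    linarith

end

end Run7.h684.WS
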