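import Pool.Agent.Run7.h684.Smp.Osc

/-!
# The oscillation over the cells in mean square
-/

set_option autoImplicit false

open MeasureTheory Filter Topology Set

namespace Run7.h684.WS

open Run7.h684.Smp

noncomputable section

/-- the Cauchy-Schwarz inequality on an interval -/
theorem cs {D : ℝ → ℝ} {x y : ℝ} (hxy : x < y) (h1 : IntervalIntegrable D volume x y)
    (h2 : IntervalIntegrable (fun v => D v ^ 2) volume x y) :
    (∫ v in x..y, D v) ^ 2 ≤ (y - x) * ∫ v in x..y, D v ^ 2 := by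
  set S := ∫ v in x..y, D v with hS
  have hL : 0 < y - x := by linarith
  have e1 : 0 ≤ ∫ v in x..y, (D v ^ 2 - 2 * (S / (y - x)) * D v + (S / (y - x)) ^ 2) := by
    refine intervalIntegral.integral_nonneg hxy.le fun v _ => ?_
    nlinarith [sq_nonneg (D v - S / (y - x))]
  rw [intervalIntegral.integral_add (h2.sub (h1.const_mul _)) intervalIntegrable_const,
    intervalIntegral.integral_sub h2 (h1.const_mul _), intervalIntegral.integral_const_mul,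
    intervalIntegral.integral_const, smul_eq_mul, ← hS] at e1
  have e2 : (y - x) * ((∫ v in x..y, D v ^ 2) - 2 * (S / (y - x)) * S + (y - x) * (S / (y - x)) ^ 2) =
      (y - x) * (∫ v in x..y, D v ^ 2) - S ^ 2 := by
    field_simp
    ring
  have e3 := mul_nonneg hL.le e1
  rw [e2] at e3
  linarith

variable {e : ℝ → ℂ}

theorem half_sq (hi : ∀ a b : ℝ, IntervalIntegrable e volume a b)
    (hi2 : ∀ h a b : ℝ, IntervalIntegrable (fun v => ‖e (v + h) - e v‖ ^ 2) volume a b)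
    {h : ℝ} (hh : 0 < h) (u : ℝ) :
    ‖Av e (2 * h) u - Av e h u‖ ^ 2 ≤ (4 * h)⁻¹ * ∫ v in u..(u + h), ‖e (v + h) - e v‖ ^ 2 := by
  rw [half hi hh u, norm_mul, norm_inv, Complex.norm_real, Real.norm_of_nonneg (by positivity), mul_pow]
  have h1 : ‖∫ v in u..(u + h), (e (v + h) - e v)‖ ≤ ∫ v in u..(u + h), ‖e (v + h) - e v‖ :=
    intervalIntegral.norm_integral_le_integral_norm (by linarith)
  have h2 := cs (show u < u + h by linarith) (ii_norm hi h _ _) (hi2 h _ _)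
  rw [add_sub_cancel_left] at h2
  calc ((2 * h)⁻¹) ^ 2 * ‖∫ v in u..(u + h), (e (v + h) - e v)‖ ^ 2
      ≤ ((2 * h)⁻¹) ^ 2 * (h * ∫ v in u..(u + h), ‖e (v + h) - e v‖ ^ 2) := by
        refine mul_le_mul_of_nonneg_left ?_ (by positivity)
        exact (pow_le_pow_left₀ (norm_nonneg _) h1 2).trans h2
    _ = (4 * h)⁻¹ * ∫ v in u..(u + h), ‖e (v + h) - e v‖ ^ 2 := by
        field_simp
        ring

theorem sq_add_sum (M : ℝ) (d : ℕ → ℝ) (J : ℕ) :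
    (M + ∑ j ∈ Finset.range J, d j) ^ 2 ≤ (J + 1) * (M ^ 2 + ∑ j ∈ Finset.range J, d j ^ 2) := by
  have h := sq_sum_le_card_mul_sum_sq (s := Finset.range (J + 1)) (f := fun j => if j < J then d j else M)
  rw [Finset.sum_range_succ, Finset.sum_range_succ, Finset.card_range] at h
  have e1 : ∑ j ∈ Finset.range J, (if j < J then d j else M) = ∑ j ∈ Finset.range J, d j :=
    Finset.sum_congr rfl fun j hj => if_pos (Finset.mem_range.1 hj)
  have e2 : ∑ j ∈ Finset.range J, (if j < J then d j else M) ^ 2 = ∑ j ∈ Finset.range J, d j ^ 2 :=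
    Finset.sum_congr rfl fun j hj => by rw [if_pos (Finset.mem_range.1 hj)]
  rw [e1, e2, if_neg (lt_irrefl J)] at h
  push_cast at h
  rw [add_comm M, add_comm (M ^ 2)]
  exact h

theorem chain_sq (hi : ∀ a b : ℝ, IntervalIntegrable e volume a b)
    (hi2 : ∀ h a b : ℝ, IntervalIntegrable (fun v => ‖e (v + h) - e v‖ ^ 2) volume a b)
    {δ M : ℝ} (hδ : 0 < δ) (u : ℝ) (J : ℕ)
    (hM : ∀ v ∈ Icc u (u + δ / 2 ^ J), ‖e v - e u‖ ≤ M) :
    ‖Av e δ u - e u‖ ^ 2 ≤ (J + 1) * (M ^ 2 + ∑ j ∈ Finset.range J, (4 * (δ / 2 ^ (j + 1)))⁻¹ *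
      ∫ v in u..(u + δ / 2 ^ (j + 1)), ‖e (v + δ / 2 ^ (j + 1)) - e v‖ ^ 2) := by
  have hh : 0 < δ / 2 ^ J := by positivity
  set d : ℕ → ℝ := fun j => ‖Av e (δ / 2 ^ j) u - Av e (δ / 2 ^ (j + 1)) u‖ with hd
  have h1 : ‖Av e (δ / 2 ^ J) u - e u‖ ≤ M := av_end hi hh hM
  have h2 : Av e δ u - Av e (δ / 2 ^ J) u =
      ∑ j ∈ Finset.range J, (Av e (δ / 2 ^ j) u - Av e (δ / 2 ^ (j + 1)) u) := by
    rw [Finset.sum_range_sub' (fun j => Av e (δ / 2 ^ j) u) J]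
    simp
  have h3 : ‖Av e δ u - e u‖ ≤ M + ∑ j ∈ Finset.range J, d j := by
    have e1 : Av e δ u - e u = (Av e (δ / 2 ^ J) u - e u) + (Av e δ u - Av e (δ / 2 ^ J) u) := by ring
    rw [e1, h2]
    exact (norm_add_le _ _).trans (add_le_add h1 (norm_sum_le _ _))
  refine (pow_le_pow_left₀ (norm_nonneg _) h3 2).trans ((sq_add_sum M d J).trans ?_)
  refine mul_le_mul_of_nonneg_left (add_le_add le_rfl (Finset.sum_le_sum fun j _ => ?_)) (by positivity)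
  have e1 : δ / 2 ^ j = 2 * (δ / 2 ^ (j + 1)) := by
    rw [pow_succ]
    field_simp
  have h4 := half_sq hi hi2 (show 0 < δ / 2 ^ (j + 1) by positivity) u
  rw [← e1] at h4
  exact h4

/-- neighbouring averages -/
theorem near_sq (hi : ∀ a b : ℝ, IntervalIntegrable e volume a b)
    (hi2 : ∀ h a b : ℝ, IntervalIntegrable (fun v => ‖e (v + h) - e v‖ ^ 2) volume a b)
    {δ x p q : ℝ} (hδ : 0 < δ) (hp : x ≤ p ∧ p ≤ x + δ) (hq : x ≤ q ∧ q ≤ x + δ) :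
    ‖Av e δ q - Av e δ p‖ ^ 2 ≤ δ⁻¹ * ∫ v in x..(x + δ), ‖e (v + δ) - e v‖ ^ 2 := by
  have h1 : ‖Av e δ q - Av e δ p‖ ≤ δ⁻¹ * ∫ v in x..(x + δ), ‖e (v + δ) - e v‖ := by
    rw [near hi, norm_mul, norm_inv, Complex.norm_real, Real.norm_of_nonneg hδ.le]
    refine mul_le_mul_of_nonneg_left ?_ (by positivity)
    refine (intervalIntegral.norm_integral_le_abs_integral_norm).trans ?_
    rcases le_total p q with hpq | hpq
    · rw [abs_of_nonneg (intervalIntegral.integral_nonneg hpq fun v _ => norm_nonneg _)]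
      exact intervalIntegral.integral_mono_interval hp.1 hpq hq.2
        (Filter.Eventually.of_forall fun v => norm_nonneg _) (ii_norm hi δ _ _)
    · rw [intervalIntegral.integral_symm, abs_neg,
        abs_of_nonneg (intervalIntegral.integral_nonneg hpq fun v _ => norm_nonneg _)]
      exact intervalIntegral.integral_mono_interval hq.1 hpq hp.2
        (Filter.Eventually.of_forall fun v => norm_nonneg _) (ii_norm hi δ _ _)
  have h2 := cs (show x < x + δ by linarith) (ii_norm hi δ _ _) (hi2 δ _ _)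
  rw [add_sub_cancel_left] at h2
  calc ‖Av e δ q - Av e δ p‖ ^ 2 ≤ (δ⁻¹ * ∫ v in x..(x + δ), ‖e (v + δ) - e v‖) ^ 2 :=
        pow_le_pow_left₀ (norm_nonneg _) h1 2
    _ = δ⁻¹ ^ 2 * (∫ v in x..(x + δ), ‖e (v + δ) - e v‖) ^ 2 := by ring
    _ ≤ δ⁻¹ ^ 2 * (δ * ∫ v in x..(x + δ), ‖e (v + δ) - e v‖ ^ 2) :=
        mul_le_mul_of_nonneg_left h2 (by positivity)
    _ = _ := by
        field_simp

/-- **The oscillation over the cells, in mean square.** -/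
theorem osc_sq {U δ B M : ℝ} {n J : ℕ} (hδ : 0 < δ)
    (hi : ∀ a b : ℝ, IntervalIntegrable e volume a b)
    (hi2 : ∀ h a b : ℝ, IntervalIntegrable (fun v => ‖e (v + h) - e v‖ ^ 2) volume a b)
    (hQ : ∀ j ≤ J, ∫ v in U..(U + (n + 1) * δ), ‖e (v + δ / 2 ^ j) - e v‖ ^ 2 ≤ δ / 2 ^ j * B)
    (hM : ∀ u ∈ Icc U (U + n * δ), ∀ v ∈ Icc u (u + δ / 2 ^ J), ‖e v - e u‖ ≤ M) (hB : 0 ≤ B) (p q : ℕ → ℝ)
    (hp : ∀ i < n, U + i * δ ≤ p i ∧ p i ≤ U + (i + 1) * δ)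
    (hq : ∀ i < n, U + i * δ ≤ q i ∧ q i ≤ U + (i + 1) * δ) :
    ∑ i ∈ Finset.range n, ‖e (q i) - e (p i)‖ ^ 2 ≤ 6 * (J + 1) * n * M ^ 2 + 3 * (J + 1) ^ 2 * B := by
  have hin : ∀ i < n, ∀ x : ℝ, U + i * δ ≤ x ∧ x ≤ U + (i + 1) * δ → x ∈ Icc U (U + n * δ) := by
    intro i hin x hx
    have h1 : (0 : ℝ) ≤ i := Nat.cast_nonneg i
    have h2 : (i : ℝ) + 1 ≤ n := by exact_mod_cast hin
    constructor
    · nlinarith [hx.1]
    · nlinarith [hx.2]
  have hJ0 : (0 : ℝ) ≤ J := Nat.cast_nonneg J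
  have key : ∀ p : ℕ → ℝ, (∀ i < n, U + i * δ ≤ p i ∧ p i ≤ U + (i + 1) * δ) →
      ∑ i ∈ Finset.range n, ‖Av e δ (p i) - e (p i)‖ ^ 2 ≤ (J + 1) * (n * M ^ 2 + J * (B / 2)) := by
    intro p hp
    have h1 : ∀ i ∈ Finset.range n, ‖Av e δ (p i) - e (p i)‖ ^ 2 ≤ (J + 1) * (M ^ 2 +
        ∑ j ∈ Finset.range J, (4 * (δ / 2 ^ (j + 1)))⁻¹ *
          ∫ v in (p i)..(p i + δ / 2 ^ (j + 1)), ‖e (v + δ / 2 ^ (j + 1)) - e v‖ ^ 2) := by
      intro i hir
      rw [Finset.mem_range] at hir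
      exact chain_sq hi hi2 hδ (p i) J fun v hv => hM _ (hin i hir _ (hp i hir)) v hv
    refine (Finset.sum_le_sum h1).trans ?_
    rw [← Finset.mul_sum, Finset.sum_add_distrib, Finset.sum_const, Finset.card_range, nsmul_eq_mul,
      Finset.sum_comm]
    refine mul_le_mul_of_nonneg_left (add_le_add le_rfl ?_) (by positivity)
    have h2 : ∀ j ∈ Finset.range J, ∑ i ∈ Finset.range n, (4 * (δ / 2 ^ (j + 1)))⁻¹ *
        ∫ v in (p i)..(p i + δ / 2 ^ (j + 1)), ‖e (v + δ / 2 ^ (j + 1)) - e v‖ ^ 2 ≤ B / 2 := by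
      intro j hj
      rw [Finset.mem_range] at hj
      have hh : 0 < δ / 2 ^ (j + 1) := by positivity
      have h3 := sum_short hδ hh (div_le_self hδ.le (one_le_pow₀ (by norm_num)))
        (D := fun v => ‖e (v + δ / 2 ^ (j + 1)) - e v‖ ^ 2) (fun v => by positivity) (hi2 _) n p hp
      have h4 := hQ (j + 1) hj
      rw [← Finset.mul_sum]
      calc (4 * (δ / 2 ^ (j + 1)))⁻¹ * ∑ i ∈ Finset.range n,
            ∫ v in (p i)..(p i + δ / 2 ^ (j + 1)), ‖e (v + δ / 2 ^ (j + 1)) - e v‖ ^ 2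
          ≤ (4 * (δ / 2 ^ (j + 1)))⁻¹ * (2 * (δ / 2 ^ (j + 1) * B)) :=
            mul_le_mul_of_nonneg_left (h3.trans (by linarith)) (by positivity)
        _ = B / 2 := by
            field_simp
            ring
    refine (Finset.sum_le_sum h2).trans ?_
    rw [Finset.sum_const, Finset.card_range, nsmul_eq_mul]
  have h0 := hQ 0 (Nat.zero_le J)
  rw [pow_zero, div_one] at h0
  have h3 : ∑ i ∈ Finset.range n, ‖Av e δ (q i) - Av e δ (p i)‖ ^ 2 ≤ B := by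
    have h5 : ∀ i ∈ Finset.range n, ‖Av e δ (q i) - Av e δ (p i)‖ ^ 2 ≤
        δ⁻¹ * ∫ v in (U + i * δ)..(U + (i + 1) * δ), ‖e (v + δ) - e v‖ ^ 2 := by
      intro i hir
      rw [Finset.mem_range] at hir
      have e1 : U + (i + 1) * δ = (U + i * δ) + δ := by ring
      have h6 := hp i hir
      have h7 := hq i hir
      rw [e1] at h6 h7 ⊢
      exact near_sq hi hi2 hδ h6 h7
    refine (Finset.sum_le_sum h5).trans ?_
    rw [← Finset.mul_sum, sum_cells U δ (hi2 δ) n]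
    have hn : (0 : ℝ) ≤ n := Nat.cast_nonneg n
    have h8 : ∫ v in U..(U + n * δ), ‖e (v + δ) - e v‖ ^ 2 ≤ δ * B := by
      refine le_trans ?_ h0
      refine intervalIntegral.integral_mono_interval le_rfl (by nlinarith) (by nlinarith)
        (Filter.Eventually.of_forall fun v => by positivity) (hi2 δ _ _)
    calc δ⁻¹ * ∫ v in U..(U + n * δ), ‖e (v + δ) - e v‖ ^ 2 ≤ δ⁻¹ * (δ * B) :=
          mul_le_mul_of_nonneg_left h8 (by positivity)
      _ = B := by field_simp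
  have h4 := key p hp
  have h5 := key q hq
  have h6 : ∀ i ∈ Finset.range n, ‖e (q i) - e (p i)‖ ^ 2 ≤ 3 * (‖Av e δ (q i) - e (q i)‖ ^ 2 +
      ‖Av e δ (q i) - Av e δ (p i)‖ ^ 2 + ‖Av e δ (p i) - e (p i)‖ ^ 2) := by
    intro i _
    have e1 : e (q i) - e (p i) = -(Av e δ (q i) - e (q i)) + (Av e δ (q i) - Av e δ (p i)) +
      (Av e δ (p i) - e (p i)) := by ring
    have h7 : ‖e (q i) - e (p i)‖ ≤ ‖Av e δ (q i) - e (q i)‖ + ‖Av e δ (q i) - Av e δ (p i)‖ +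
        ‖Av e δ (p i) - e (p i)‖ := by
      rw [e1]
      refine (norm_add_le _ _).trans (add_le_add ((norm_add_le _ _).trans ?_) le_rfl)
      rw [norm_neg]
    refine (pow_le_pow_left₀ (norm_nonneg _) h7 2).trans ?_
    nlinarith [sq_nonneg (‖Av e δ (q i) - e (q i)‖ - ‖Av e δ (q i) - Av e δ (p i)‖),
      sq_nonneg (‖Av e δ (q i) - e (q i)‖ - ‖Av e δ (p i) - e (p i)‖),
      sq_nonneg (‖Av e δ (q i) - Av e δ (p i)‖ - ‖Av e δ (p i) - e (p i)‖)]
  refine (Finset.sum_le_sum h6).trans ?_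
  rw [← Finset.mul_sum, Finset.sum_add_distrib, Finset.sum_add_distrib]
  nlinarith [mul_nonneg hJ0 hB]

/-- **The oscillation over the cells of a window.** -/
theorem osc2 {a : ℕ → ℂ} {F : ℂ → ℂ} {θ : ℝ} (h : Dat a F θ) {σ ε : ℝ} (hσ : θ < σ) (hε : 0 < ε) (hε1 : ε < 1) :
    ∃ C : ℝ, 0 < C ∧ ∀ (U δ : ℝ) (n : ℕ), 0 ≤ U → 0 < δ → δ ≤ 1 → 0 < n →
      Real.exp (-(U + (n + 1) * δ)) ≤ δ → ∃ w : ℕ → ℝ, (∀ i, 0 ≤ w i) ∧
      (∀ i < n, ∀ x y : ℝ, U + i * δ ≤ x → x ≤ U + (i + 1) * δ → U + i * δ ≤ y → y ≤ U + (i + 1) * δ →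
        ‖E a x - E a y‖ ^ 2 ≤ w i) ∧
      ∑ i ∈ Finset.range n, w i ≤
        C * (1 + (U + (n + 1) * δ)) ^ 3 * (n + Real.exp (2 * (σ + ε) * (U + (n + 1) * δ))) := by
  obtain ⟨C, hC0, hC⟩ := h.ms hσ (show 0 < ε / 2 by linarith) (by linarith)
  refine ⟨2 * (6 * 3 * 36 + 3 * 9 * (4 * C)) + 2, by positivity, fun U δ n hU hδ hδ1 hn hVδ => ?_⟩
  set V : ℝ := U + (n + 1) * δ with hV
  have hnR : (0 : ℝ) < n := by exact_mod_cast hn
  have hV0 : 0 < V := by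
    rw [hV]
    have : 0 < ((n : ℝ) + 1) * δ := by positivity
    linarith
  set J : ℕ := 2 * ⌈V⌉₊ with hJ
  have hceil : V ≤ ⌈V⌉₊ := Nat.le_ceil V
  have hceil2 : (⌈V⌉₊ : ℝ) < V + 1 := Nat.ceil_lt_add_one hV0.le
  have h2J : Real.exp V ≤ 2 ^ J := by
    have e1 : (2 : ℝ) ^ J = 4 ^ (⌈V⌉₊ : ℝ) := by
      rw [Real.rpow_natCast, hJ, pow_mul]
      norm_num
    rw [e1]
    have h1 : Real.exp V ≤ (4 : ℝ) ^ V := by
      rw [Real.rpow_def_of_pos (by norm_num)]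
      apply Real.exp_le_exp.2
      have h2 : 1 ≤ Real.log 4 := by
        rw [Real.le_log_iff_exp_le (by norm_num)]
        have := Real.exp_one_lt_d9
        linarith
      nlinarith
    exact h1.trans (Real.rpow_le_rpow_of_exponent_le (by norm_num) hceil)
  have h2J' : (2 : ℝ) ^ J ≤ 4 * Real.exp (2 * V) := by
    have e1 : (2 : ℝ) ^ J = 4 ^ (⌈V⌉₊ : ℝ) := by
      rw [Real.rpow_natCast, hJ, pow_mul]
      norm_num
    rw [e1]
    have h1 : (4 : ℝ) ^ V ≤ Real.exp (2 * V) := by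
      rw [Real.rpow_def_of_pos (by norm_num)]
      apply Real.exp_le_exp.2
      have h2 : Real.log 4 ≤ 2 := by
        rw [Real.log_le_iff_le_exp (by norm_num)]
        have h3 := Real.exp_one_gt_d9
        have h4 : Real.exp 2 = Real.exp 1 * Real.exp 1 := by rw [← Real.exp_add]; norm_num
        rw [h4]
        nlinarith
      nlinarith
    calc (4 : ℝ) ^ (⌈V⌉₊ : ℝ) ≤ 4 ^ (V + 1) :=
          Real.rpow_le_rpow_of_exponent_le (by norm_num) hceil2.le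
      _ = 4 * 4 ^ V := by rw [Real.rpow_add (by norm_num), Real.rpow_one, mul_comm]
      _ ≤ _ := by linarith
  set B : ℝ := 4 * C * Real.exp (2 * (σ + ε) * V) with hB
  have hB0 : 0 < B := by rw [hB]; positivity
  have hM : ∀ u ∈ Icc U (U + n * δ), ∀ v ∈ Icc u (u + δ / 2 ^ J), ‖E a v - E a u‖ ≤ 3 * (2 + V) := by
    intro u hu v hv
    have h1 : δ / 2 ^ J ≤ Real.exp (-V) := by
      rw [div_le_iff₀ (by positivity), Real.exp_neg, inv_mul_eq_div, le_div_iff₀ (Real.exp_pos _)]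
      calc δ * Real.exp V ≤ 1 * Real.exp V := by gcongr
        _ ≤ 2 ^ J := by rw [one_mul]; exact h2J
    have h2 : δ / 2 ^ J ≤ δ := div_le_self hδ.le (one_le_pow₀ (by norm_num))
    have h3 : u ≤ V := by rw [hV]; nlinarith [hu.2]
    have h4 : v ≤ V := by
      rw [hV]
      have := hu.2
      have := hv.2
      nlinarith
    exact h.fine h1 (h2.trans hδ1) (hU.trans hu.1) h3 hv.1 hv.2 h4
  have hQ : ∀ j ≤ J, ∫ v in U..(U + (n + 1) * δ), ‖E a (v + δ / 2 ^ j) - E a v‖ ^ 2 ≤ δ / 2 ^ j * B := by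
    intro j hj
    have hd0 : 0 < δ / 2 ^ j := by positivity
    have hd1 : δ / 2 ^ j ≤ 1 := (div_le_self hδ.le (one_le_pow₀ (by norm_num))).trans hδ1
    have h1 := hC (δ / 2 ^ j) hd0 hd1 U V (by
      rw [hV]
      have : 0 < ((n : ℝ) + 1) * δ := by positivity
      linarith)
    refine h1.trans ?_
    have h2 : (δ / 2 ^ j) ^ (1 - ε / 2) = δ / 2 ^ j * (δ / 2 ^ j) ^ (-(ε / 2)) := by
      rw [show 1 - ε / 2 = 1 + -(ε / 2) by ring, Real.rpow_add hd0, Real.rpow_one]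
    have h3 : Real.exp (-(3 * V)) / 4 ≤ δ / 2 ^ j := by
      have h4 : (2 : ℝ) ^ j ≤ 4 * Real.exp (2 * V) :=
        (pow_le_pow_right₀ (by norm_num) hj).trans h2J'
      rw [le_div_iff₀ (by positivity)]
      calc Real.exp (-(3 * V)) / 4 * 2 ^ j ≤ Real.exp (-(3 * V)) / 4 * (4 * Real.exp (2 * V)) := by
            gcongr
        _ = Real.exp (-V) := by
            rw [show Real.exp (-(3 * V)) / 4 * (4 * Real.exp (2 * V)) =
              Real.exp (-(3 * V)) * Real.exp (2 * V) by ring, ← Real.exp_add]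
            congr 1
            ring
        _ ≤ δ := hVδ
    have h5 : (δ / 2 ^ j) ^ (-(ε / 2)) ≤ 4 * Real.exp (2 * ε * V) := by
      have h6 : (δ / 2 ^ j) ^ (-(ε / 2)) ≤ (Real.exp (-(3 * V)) / 4) ^ (-(ε / 2)) :=
        Real.rpow_le_rpow_of_nonpos (by positivity) h3 (by linarith)
      refine h6.trans ?_
      rw [Real.div_rpow (Real.exp_pos _).le (by norm_num), ← Real.exp_mul,
        Real.rpow_neg (by norm_num : (0 : ℝ) ≤ 4), div_inv_eq_mul, mul_comm]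
      have h7 : (4 : ℝ) ^ (ε / 2) ≤ 4 := by
        calc (4 : ℝ) ^ (ε / 2) ≤ 4 ^ (1 : ℝ) :=
              Real.rpow_le_rpow_of_exponent_le (by norm_num) (by linarith)
          _ = 4 := Real.rpow_one 4
      have h8 : Real.exp (-(3 * V) * -(ε / 2)) ≤ Real.exp (2 * ε * V) := by
        apply Real.exp_le_exp.2
        nlinarith [mul_pos hε hV0]
      gcongr
    rw [h2]
    calc C * Real.exp (2 * σ * V) * (δ / 2 ^ j * (δ / 2 ^ j) ^ (-(ε / 2)))
        ≤ C * Real.exp (2 * σ * V) * (δ / 2 ^ j * (4 * Real.exp (2 * ε * V))) := by gcongr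
      _ = δ / 2 ^ j * (4 * C * (Real.exp (2 * σ * V) * Real.exp (2 * ε * V))) := by ring
      _ = _ := by
          rw [← Real.exp_add, hB]
          congr 3
          ring
  -- the largest oscillation
  have hsup : ∀ i : ℕ, ∃ p q : ℝ, (U + i * δ ≤ p ∧ p ≤ U + (i + 1) * δ) ∧
      (U + i * δ ≤ q ∧ q ≤ U + (i + 1) * δ) ∧ ∀ x y : ℝ, U + i * δ ≤ x → x ≤ U + (i + 1) * δ →
        U + i * δ ≤ y → y ≤ U + (i + 1) * δ → ‖E a x - E a y‖ ≤ ‖E a q - E a p‖ + 1 := by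
    intro i
    obtain ⟨C', hN⟩ := h.nice (show θ < θ + 1 by linarith)
    have hC'0 := hN.C_nonneg
    have hle : U + i * δ ≤ U + (i + 1) * δ := by rw [add_mul, one_mul]; linarith
    have hb1 : ∀ v, v ≤ U + (i + 1) * δ → ‖E a v‖ ≤ C' * Real.exp ((θ + 1) * (U + (i + 1) * δ)) := by
      intro v hv
      refine (hN.bound v).trans (mul_le_mul_of_nonneg_left ?_ hC'0)
      have := h.h0
      exact Real.exp_le_exp.2 (mul_le_mul_of_nonneg_left hv (by linarith))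
    set S : Set ℝ := (fun z : ℝ × ℝ => ‖E a z.2 - E a z.1‖) ''
      (Icc (U + i * δ) (U + (i + 1) * δ) ×ˢ Icc (U + i * δ) (U + (i + 1) * δ)) with hS
    have hne : S.Nonempty := ⟨_, (U + i * δ, U + i * δ), ⟨⟨le_rfl, hle⟩, ⟨le_rfl, hle⟩⟩, rfl⟩
    have hbd : BddAbove S := by
      refine ⟨2 * (C' * Real.exp ((θ + 1) * (U + (i + 1) * δ))), ?_⟩
      rintro z ⟨⟨x, y⟩, ⟨hx, hy⟩, rfl⟩
      have g1 := hb1 x hx.2
      have g2 := hb1 y hy.2
      have g3 := norm_sub_le (E a y) (E a x)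
      simp only
      linarith
    obtain ⟨z, ⟨⟨p, q⟩, ⟨hp, hq⟩, rfl⟩, h1⟩ :=
      exists_lt_of_lt_csSup hne (show sSup S - 1 < sSup S by linarith)
    refine ⟨p, q, hp, hq, fun x y g1 g2 g3 g4 => ?_⟩
    have h2 : ‖E a x - E a y‖ ≤ sSup S := le_csSup hbd ⟨(y, x), ⟨⟨g3, g4⟩, ⟨g1, g2⟩⟩, rfl⟩
    simp only at h1
    linarith
  choose p q hp hq hpq using hsup
  have hmain := osc_sq (J := J) (B := B) hδ h.ii h.ii2 hQ hM hB0.le p q (fun i _ => hp i) (fun i _ => hq i)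
  refine ⟨fun i => 2 * ‖E a (q i) - E a (p i)‖ ^ 2 + 2, fun i => by positivity, ?_, ?_⟩
  · intro i _ x y g1 g2 g3 g4
    have h1 := hpq i x y g1 g2 g3 g4
    have h2 := pow_le_pow_left₀ (norm_nonneg _) h1 2
    nlinarith [sq_nonneg (‖E a (q i) - E a (p i)‖ - 1)]
  · rw [Finset.sum_add_distrib, ← Finset.mul_sum, Finset.sum_const, Finset.card_range, nsmul_eq_mul]
    have hJR : (J : ℝ) ≤ 2 * (V + 1) := by
      rw [hJ]
      push_cast
      linarith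
    have hJ1 : (J : ℝ) + 1 ≤ 3 * (1 + V) := by linarith
    have hJ0 : (0 : ℝ) ≤ J := Nat.cast_nonneg J
    set L : ℝ := 1 + V with hL
    have hL1 : 1 ≤ L := by rw [hL]; linarith
    have hX0 : 0 < Real.exp (2 * (σ + ε) * V) := Real.exp_pos _
    have h1 : 6 * ((J : ℝ) + 1) * n * (3 * (2 + V)) ^ 2 ≤ 6 * 3 * 36 * (L ^ 3 * n) := by
      have g1 : (3 * (2 + V)) ^ 2 ≤ 36 * L ^ 2 := by
        rw [hL]
        nlinarith [hV0]
      calc 6 * ((J : ℝ) + 1) * n * (3 * (2 + V)) ^ 2 ≤ 6 * (3 * L) * n * (36 * L ^ 2) := by gcongr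
        _ = _ := by ring
    have h2 : 3 * ((J : ℝ) + 1) ^ 2 * B ≤ 3 * 9 * (4 * C) * (L ^ 3 * Real.exp (2 * (σ + ε) * V)) := by
      have g1 : ((J : ℝ) + 1) ^ 2 ≤ 9 * L ^ 3 := by
        calc ((J : ℝ) + 1) ^ 2 ≤ (3 * L) ^ 2 := by gcongr
          _ = 9 * L ^ 2 := by ring
          _ ≤ 9 * L ^ 3 := by
              have : L ^ 2 ≤ L ^ 3 := pow_le_pow_right₀ hL1 (by norm_num)
              linarith
      calc 3 * ((J : ℝ) + 1) ^ 2 * B ≤ 3 * (9 * L ^ 3) * B := by gcongr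
        _ = _ := by rw [hB]; ring
    have h3 : (n : ℝ) * 2 ≤ 2 * (L ^ 3 * n) := by
      have : 1 ≤ L ^ 3 := one_le_pow₀ hL1
      nlinarith
    have h4 : 0 ≤ L ^ 3 * n := by positivity
    have h5 : 0 ≤ L ^ 3 * Real.exp (2 * (σ + ε) * V) := by positivity
    have h6 : 0 ≤ C * (L ^ 3 * n) := by positivity
    have e1 : (2 * (6 * 3 * 36 + 3 * 9 * (4 * C)) + 2) * L ^ 3 * (n + Real.exp (2 * (σ + ε) * V)) =
      2 * (6 * 3 * 36) * (L ^ 3 * n) + 2 * (3 * 9 * (4 * C)) * (L ^ 3 * Real.exp (2 * (σ + ε) * V)) +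
        2 * (L ^ 3 * n) + (2 * (3 * 9 * 4) * (C * (L ^ 3 * n)) +
        2 * (6 * 3 * 36) * (L ^ 3 * Real.exp (2 * (σ + ε) * V)) +
        2 * (L ^ 3 * Real.exp (2 * (σ + ε) * V))) := by ring
    rw [e1]
    have h7 : 0 ≤ 2 * (3 * 9 * 4) * (C * (L ^ 3 * n)) +
        2 * (6 * 3 * 36) * (L ^ 3 * Real.exp (2 * (σ + ε) * V)) +
        2 * (L ^ 3 * Real.exp (2 * (σ + ε) * V)) := by positivity
    linarith

end

end Run7.h684.WS
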