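import Pool.Agent.Run7.h684.WS.Sq
import Pool.Agent.Run7.h684.WS.Cell
import Pool.Agent.Run7.h684.Smp.Cnt

/-!
# The oscillation of `‖PS a u‖ / u` over the cells of a window
-/

set_option autoImplicit false

open MeasureTheory Filter Topology Set

namespace Run7.h684.WS

open Run7.h684.Smp

noncomputable section

variable {a : ℕ → ℂ} {F : ℂ → ℂ} {Θ : ℝ}

/-- the function -/
def Gf (a : ℕ → ℂ) (u : ℝ) : ℝ := ‖PS a u‖ / u

theorem Gf_diff {x y X δ w B : ℝ} (hX : 0 < X) (hδ : 0 ≤ δ) (hx : X ≤ x) (hy : X ≤ y)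
    (hxy : |y - x| ≤ 2 * δ * x) (hw : ‖PS a x - PS a y‖ ^ 2 ≤ w) (hB : ‖PS a y‖ ≤ B) :
    (Gf a x - Gf a y) ^ 2 ≤ 2 * w / X ^ 2 + 8 * δ ^ 2 * B ^ 2 / X ^ 2 := by
  have hx0 : 0 < x := by linarith
  have hy0 : 0 < y := by linarith
  have hB0 : 0 ≤ B := (norm_nonneg _).trans hB
  have e1 : Gf a x - Gf a y = (‖PS a x‖ - ‖PS a y‖) / x + ‖PS a y‖ * ((y - x) / (x * y)) := by
    unfold Gf
    field_simp
    ring
  have h1 : ((‖PS a x‖ - ‖PS a y‖) / x) ^ 2 ≤ w / X ^ 2 := by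
    rw [div_pow]
    have g1 : (‖PS a x‖ - ‖PS a y‖) ^ 2 ≤ ‖PS a x - PS a y‖ ^ 2 := by
      rw [← sq_abs]
      exact pow_le_pow_left₀ (abs_nonneg _) (abs_norm_sub_norm_le _ _) 2
    have g2 : 0 ≤ w := (sq_nonneg _).trans hw
    exact div_le_div₀ g2 (g1.trans hw) (by positivity) (pow_le_pow_left₀ hX.le hx 2)
  have h2 : (‖PS a y‖ * ((y - x) / (x * y))) ^ 2 ≤ 4 * δ ^ 2 * B ^ 2 / X ^ 2 := by
    have g1 : |‖PS a y‖ * ((y - x) / (x * y))| ≤ B * (2 * δ / X) := by
      rw [abs_mul, abs_of_nonneg (norm_nonneg _), abs_div, abs_of_pos (mul_pos hx0 hy0)]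
      refine mul_le_mul hB ?_ (by positivity) hB0
      calc |y - x| / (x * y) ≤ 2 * δ * x / (x * y) := by gcongr
        _ = 2 * δ / y := by field_simp
        _ ≤ 2 * δ / X := by gcongr
    rw [← sq_abs]
    refine (pow_le_pow_left₀ (abs_nonneg _) g1 2).trans (le_of_eq ?_)
    field_simp
    ring
  rw [e1]
  have h3 := add_sq_le (a := (‖PS a x‖ - ‖PS a y‖) / x) (b := ‖PS a y‖ * ((y - x) / (x * y)))
  have e2 : 2 * w / X ^ 2 + 8 * δ ^ 2 * B ^ 2 / X ^ 2 = 2 * (w / X ^ 2 + 4 * δ ^ 2 * B ^ 2 / X ^ 2) := by ring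
  rw [e2]
  linarith

/-- the oscillation over the cells -/
theorem win_osc (h : Dat a F Θ) (hΘ : 1 / 2 ≤ Θ) {η κ : ℝ} (hη : 0 < η) (hη1 : η ≤ 1) (hκ : 0 < κ) :
    ∀ᶠ X : ℝ in atTop, ∃ (n : ℕ) (z : ℕ → ℝ), 0 < n ∧ X ^ η ≤ n ∧ (n : ℝ) ≤ 2 * X ^ η ∧ (∀ i, 0 ≤ z i) ∧
      (∀ i < n, ∀ x y : ℝ, X * Real.exp (i / n) ≤ x → x ≤ X * Real.exp ((i + 1 : ℕ) / n) →
        X * Real.exp (i / n) ≤ y → y ≤ X * Real.exp ((i + 1 : ℕ) / n) → (Gf a x - Gf a y) ^ 2 ≤ z i) ∧
      ∑ i ∈ Finset.range n, (X * Real.exp ((i + 1 : ℕ) / n) - X * Real.exp (i / n)) * z i ≤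
        X ^ (2 * Θ - 1 - η + κ) := by
  set k : ℝ := min (κ / 16) (1 / 16) with hk
  have hk0 : 0 < k := lt_min (by linarith) (by norm_num)
  have hk1 : k ≤ κ / 16 := min_le_left _ _
  have hk2 : k ≤ 1 / 16 := min_le_right _ _
  obtain ⟨C, hC0, hosc⟩ := osc2 h (σ := Θ + k) (ε := k) (by linarith) hk0 (by linarith)
  obtain ⟨C3, hC30, hC3⟩ := h.sum' (σ := Θ + k) (by linarith)
  set c1 : ℝ := Real.exp (4 * (Θ + 2 * k)) with hc1
  have hc10 : 0 < c1 := Real.exp_pos _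
  set c2 : ℝ := C3 ^ 2 * Real.exp 1 ^ (2 * (Θ + k)) with hc2
  have hc20 : 0 ≤ c2 := by positivity
  have t1 := ev_rpow (3 * (12 * C)) (show 3 * k - 1 < 2 * Θ - 1 - η + κ by linarith)
  have t2 := ev_rpow (3 * (12 * C * c1)) (show 2 * Θ - 1 - η + 7 * k < 2 * Θ - 1 - η + κ by linarith)
  have t3 := ev_rpow (3 * (48 * c2)) (show 2 * Θ - 1 - 2 * η + 2 * k < 2 * Θ - 1 - η + κ by linarith)
  filter_upwards [t1, t2, t3, ev_log 3 hk0, eventually_ge_atTop 1] with X a1 a2 a3 a4 a5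
  have hX : 0 < X := by linarith
  have hXη : 1 ≤ X ^ η := Real.one_le_rpow a5 hη.le
  set n : ℕ := ⌈X ^ η⌉₊ with hn
  have hn1 : X ^ η ≤ n := Nat.le_ceil _
  have hn2 : (n : ℝ) ≤ 2 * X ^ η := by
    have := Nat.ceil_lt_add_one (show 0 ≤ X ^ η by positivity)
    linarith
  have hnR : (1 : ℝ) ≤ n := hXη.trans hn1
  have hn0 : 0 < n := by
    have : (0 : ℝ) < n := by linarith
    exact_mod_cast this
  have hnp : (0 : ℝ) < n := by linarith
  set δ : ℝ := 1 / n with hδ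
  have hδ0 : 0 < δ := by positivity
  have hδ1 : δ ≤ 1 := by
    rw [hδ, div_le_one hnp]
    exact hnR
  have hnδ : (n : ℝ) * δ = 1 := by rw [hδ]; field_simp
  have hδX : δ ≤ X ^ (-η) := by
    rw [hδ, Real.rpow_neg hX.le, ← one_div]
    exact one_div_le_one_div_of_le (by positivity) hn1
  set U : ℝ := Real.log X with hU
  have hU0 : 0 ≤ U := Real.log_nonneg a5
  have hexpU : Real.exp U = X := Real.exp_log hX
  set V : ℝ := U + (n + 1) * δ with hV
  have hV1 : V = U + 1 + δ := by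
    rw [hV, add_mul, hnδ]
    ring
  have hVle : V ≤ U + 2 := by linarith
  have hexpV : Real.exp (-V) ≤ δ := by
    have g1 : Real.exp (-V) ≤ Real.exp (-1) * X⁻¹ := by
      rw [← hexpU, ← Real.exp_neg, ← Real.exp_add]
      apply Real.exp_le_exp.2
      linarith
    have g2 : Real.exp (-1) ≤ 1 / 2 := by
      rw [Real.exp_neg, ← one_div]
      have := Real.exp_one_gt_d9
      exact one_div_le_one_div_of_le (by norm_num) (by linarith)
    have g3 : X ^ η ≤ X := by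
      calc X ^ η ≤ X ^ (1 : ℝ) := Real.rpow_le_rpow_of_exponent_le a5 hη1
        _ = X := Real.rpow_one X
    have g4 : 1 / (2 * X) ≤ δ := by
      rw [hδ]
      exact one_div_le_one_div_of_le hnp (by linarith)
    refine g1.trans (le_trans ?_ g4)
    calc Real.exp (-1) * X⁻¹ ≤ 1 / 2 * X⁻¹ := by gcongr
      _ = 1 / (2 * X) := by field_simp
  obtain ⟨w, hw0, hw1, hw2⟩ := hosc U δ n hU0 hδ0 hδ1 hn0 hexpV
  set B : ℝ := C3 * (Real.exp 1 * X) ^ (Θ + k) with hB
  have hBsq : B ^ 2 = c2 * X ^ (2 * (Θ + k)) := by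
    have e1 : ∀ t : ℝ, 0 ≤ t → (t ^ (Θ + k)) ^ 2 = t ^ (2 * (Θ + k)) := by
      intro t ht
      rw [← Real.rpow_natCast, ← Real.rpow_mul ht]
      congr 1
      push_cast
      ring
    rw [hB, mul_pow, e1 _ (by positivity), Real.mul_rpow (Real.exp_pos _).le hX.le, hc2]
    ring
  have hcell : ∀ i : ℕ, X * Real.exp (i / n) = Real.exp (U + i * δ) := by
    intro i
    rw [Real.exp_add, hexpU, hδ]
    congr 2
    ring
  have hcell' : ∀ i : ℕ, X * Real.exp ((i + 1 : ℕ) / n) = Real.exp (U + (i + 1) * δ) := by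
    intro i
    rw [hcell]
    push_cast
    rfl
  have hlen : ∀ i < n, Real.exp (U + (i + 1) * δ) - Real.exp (U + i * δ) ≤ 2 * δ * Real.exp (U + i * δ) := by
    intro i _
    have e1 : Real.exp (U + (i + 1) * δ) - Real.exp (U + i * δ) =
        Real.exp (U + i * δ) * (Real.exp δ - 1) := by
      rw [mul_sub, ← Real.exp_add, mul_one]
      ring_nf
    have h4 : Real.exp δ - 1 ≤ 2 * δ := by
      have h5 := Real.abs_exp_sub_one_le (show |δ| ≤ 1 by rwa [abs_of_pos hδ0])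
      rw [abs_of_pos hδ0] at h5
      exact (le_abs_self _).trans h5
    rw [e1]
    calc Real.exp (U + i * δ) * (Real.exp δ - 1) ≤ Real.exp (U + i * δ) * (2 * δ) :=
          mul_le_mul_of_nonneg_left h4 (Real.exp_pos _).le
      _ = _ := by ring
  have htop : ∀ i < n, Real.exp (U + (i + 1) * δ) ≤ Real.exp 1 * X := by
    intro i hi
    rw [← hexpU, ← Real.exp_add]
    apply Real.exp_le_exp.2
    have h1 : (i : ℝ) + 1 ≤ n := by exact_mod_cast hi
    have h2 := mul_le_mul_of_nonneg_right h1 hδ0.le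
    linarith
  have hbot : ∀ i : ℕ, X ≤ Real.exp (U + i * δ) := by
    intro i
    have h1 : Real.exp U ≤ Real.exp (U + i * δ) := by
      apply Real.exp_le_exp.2
      have : 0 ≤ (i : ℝ) * δ := by positivity
      linarith
    rwa [hexpU] at h1
  refine ⟨n, fun i => 2 * w i / X ^ 2 + 8 * δ ^ 2 * B ^ 2 / X ^ 2, hn0, hn1, hn2, fun i => ?_, ?_, ?_⟩
  · have := hw0 i
    positivity
  · intro i hi x y g1 g2 g3 g4
    rw [hcell] at g1 g3
    rw [hcell'] at g2 g4
    have hx : X ≤ x := (hbot i).trans g1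
    have hy : X ≤ y := (hbot i).trans g3
    have hx0 : 0 < x := by linarith
    have hy0 : 0 < y := by linarith
    refine Gf_diff hX hδ0.le hx hy ?_ ?_ ?_
    · have g5 := hlen i hi
      have g6 : 2 * δ * Real.exp (U + i * δ) ≤ 2 * δ * x := mul_le_mul_of_nonneg_left g1 (by positivity)
      rw [abs_le]
      constructor <;> linarith
    · have e1 : PS a x = E a (Real.log x) := by
        unfold E
        rw [Real.exp_log hx0]
      have e2 : PS a y = E a (Real.log y) := by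
        unfold E
        rw [Real.exp_log hy0]
      rw [e1, e2]
      refine hw1 i hi _ _ ?_ ?_ ?_ ?_
      · rwa [Real.le_log_iff_exp_le hx0]
      · rwa [Real.log_le_iff_le_exp hx0]
      · rwa [Real.le_log_iff_exp_le hy0]
      · rwa [Real.log_le_iff_le_exp hy0]
    · refine (hC3 y (a5.trans hy)).trans ?_
      rw [hB]
      refine mul_le_mul_of_nonneg_left ?_ hC30
      exact Real.rpow_le_rpow hy0.le (g4.trans (htop i hi)) (by linarith)
  · -- the sum
    have hstep : ∀ i ∈ Finset.range n, (X * Real.exp ((i + 1 : ℕ) / n) - X * Real.exp (i / n)) *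
        (2 * w i / X ^ 2 + 8 * δ ^ 2 * B ^ 2 / X ^ 2) ≤
        (6 * δ * X) * (2 * w i / X ^ 2 + 8 * δ ^ 2 * B ^ 2 / X ^ 2) := by
      intro i hi
      rw [Finset.mem_range] at hi
      have g0 := hw0 i
      refine mul_le_mul_of_nonneg_right ?_ (by positivity)
      rw [hcell', hcell]
      refine (hlen i hi).trans ?_
      have g1 : Real.exp (U + i * δ) ≤ Real.exp (U + (i + 1) * δ) := by
        apply Real.exp_le_exp.2
        rw [add_mul, one_mul]
        linarith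
      have g2 : Real.exp 1 * X ≤ 3 * X := by
        have := Real.exp_one_lt_d9
        exact mul_le_mul_of_nonneg_right (by linarith) hX.le
      calc 2 * δ * Real.exp (U + i * δ) ≤ 2 * δ * (3 * X) := by
            refine mul_le_mul_of_nonneg_left ?_ (by positivity)
            exact (g1.trans (htop i hi)).trans g2
        _ = 6 * δ * X := by ring
    refine (Finset.sum_le_sum hstep).trans ?_
    rw [← Finset.mul_sum, Finset.sum_add_distrib, ← Finset.sum_div, ← Finset.mul_sum, Finset.sum_const,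
      Finset.card_range, nsmul_eq_mul]
    have e1 : 6 * δ * X * (2 * (∑ i ∈ Finset.range n, w i) / X ^ 2 + n * (8 * δ ^ 2 * B ^ 2 / X ^ 2)) =
        12 * (δ * ∑ i ∈ Finset.range n, w i) / X + 48 * ((n * δ) * (δ ^ 2 * B ^ 2)) / X := by
      field_simp
      ring
    rw [e1, hnδ, one_mul]
    have h1V : 1 + V ≤ X ^ k := by
      have : 1 + V ≤ 3 + U := by linarith
      exact this.trans a4
    have hV0 : 0 ≤ 1 + V := by
      rw [hV1]
      linarith
    have hexpσ : Real.exp (2 * (Θ + k + k) * V) ≤ c1 * X ^ (2 * Θ + 4 * k) := by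
      have g1 : Real.exp (2 * (Θ + k + k) * V) ≤ Real.exp (2 * (Θ + k + k) * (U + 2)) := by
        apply Real.exp_le_exp.2
        exact mul_le_mul_of_nonneg_left hVle (by linarith)
      refine g1.trans (le_of_eq ?_)
      rw [mul_add, Real.exp_add, mul_comm (2 * (Θ + k + k)) U, Real.exp_mul, hexpU, hc1, mul_comm]
      congr 2
      · ring
      · ring
    have hsum : δ * ∑ i ∈ Finset.range n, w i ≤ C * X ^ (3 * k) * (1 + δ * (c1 * X ^ (2 * Θ + 4 * k))) := by
      have e2 : (X ^ k) ^ 3 = X ^ (3 * k) := by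
        rw [← Real.rpow_natCast, ← Real.rpow_mul hX.le]
        congr 1
        push_cast
        ring
      calc δ * ∑ i ∈ Finset.range n, w i
          ≤ δ * (C * (1 + V) ^ 3 * (n + Real.exp (2 * (Θ + k + k) * V))) :=
            mul_le_mul_of_nonneg_left hw2 hδ0.le
        _ ≤ δ * (C * (X ^ k) ^ 3 * (n + c1 * X ^ (2 * Θ + 4 * k))) := by gcongr
        _ = C * X ^ (3 * k) * ((n * δ) + δ * (c1 * X ^ (2 * Θ + 4 * k))) := by rw [e2]; ring
        _ = _ := by rw [hnδ]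
    have hδ2 : δ * X ^ (2 * Θ + 4 * k) ≤ X ^ (2 * Θ - η + 4 * k) := by
      calc δ * X ^ (2 * Θ + 4 * k) ≤ X ^ (-η) * X ^ (2 * Θ + 4 * k) := by gcongr
        _ = X ^ (2 * Θ - η + 4 * k) := by
            rw [← Real.rpow_add hX]
            congr 1
            ring
    have hp1 : 12 * (δ * ∑ i ∈ Finset.range n, w i) / X ≤
        12 * C * X ^ (3 * k - 1) + 12 * C * c1 * X ^ (2 * Θ - 1 - η + 7 * k) := by
      have e3 : X ^ (3 * k - 1) = X ^ (3 * k) / X := by rw [Real.rpow_sub hX, Real.rpow_one]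
      have e4 : X ^ (2 * Θ - 1 - η + 7 * k) = X ^ (3 * k) * X ^ (2 * Θ - η + 4 * k) / X := by
        rw [← Real.rpow_add hX, ← Real.rpow_sub_one hX.ne']
        congr 1
        ring
      calc 12 * (δ * ∑ i ∈ Finset.range n, w i) / X
          ≤ 12 * (C * X ^ (3 * k) * (1 + δ * (c1 * X ^ (2 * Θ + 4 * k)))) / X := by gcongr
        _ = 12 * C * (X ^ (3 * k) / X) + 12 * C * c1 * (X ^ (3 * k) * (δ * X ^ (2 * Θ + 4 * k)) / X) := by
            field_simp
        _ ≤ 12 * C * (X ^ (3 * k) / X) + 12 * C * c1 * (X ^ (3 * k) * X ^ (2 * Θ - η + 4 * k) / X) := by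
            gcongr
        _ = _ := by rw [e3, e4]
    have hp2 : 48 * (δ ^ 2 * B ^ 2) / X ≤ 48 * c2 * X ^ (2 * Θ - 1 - 2 * η + 2 * k) := by
      have e5 : X ^ (2 * Θ - 1 - 2 * η + 2 * k) = X ^ (-η) ^ 1 * X ^ (-η) * X ^ (2 * (Θ + k)) / X := by
        rw [pow_one, ← Real.rpow_add hX, ← Real.rpow_add hX, ← Real.rpow_sub_one hX.ne']
        congr 1
        ring
      rw [hBsq]
      calc 48 * (δ ^ 2 * (c2 * X ^ (2 * (Θ + k)))) / X
          ≤ 48 * ((X ^ (-η)) ^ 2 * (c2 * X ^ (2 * (Θ + k)))) / X := by gcongr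
        _ = 48 * c2 * ((X ^ (-η)) * X ^ (-η) * X ^ (2 * (Θ + k)) / X) := by ring
        _ = 48 * c2 * X ^ (2 * Θ - 1 - 2 * η + 2 * k) := by
            rw [← Real.rpow_add hX, ← Real.rpow_add hX, ← Real.rpow_sub_one hX.ne']
            congr 2
            ring
    linarith

end

end Run7.h684.WS
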